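import Mathlib

/-!
Definitions: larger domains `O ⊇ D` with contact at one boundary point `p`; the corona theorem for the
restrictions to `D` of data on `O`; the domains.
-/

set_option autoImplicit false

open Metric Set Filter Topology
open scoped ContDiff

namespace Pool.Agent.H272.OSP

/-- `ℂ^m` with the Euclidean norm. -/
abbrev V (m : ℕ) := EuclideanSpace ℂ (Fin m)

/-- The open unit ball of `ℂ^n`. -/
def Ball (n : ℕ) : Set (V n) := ball 0 1

/-- The open set `O` contains `D` and all boundary points of `D` except possibly `p`, and near `p` it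
contains all points `x ≠ p` whose distance from `D` is less than `κ(|x - p|)`. -/
def Surrounds {m : ℕ} (D O : Set (V m)) (p : V m) (κ : ℝ → ℝ) : Prop :=
  IsOpen O ∧ D ⊆ O ∧ closure D \ {p} ⊆ O ∧
    ∃ r > 0, ∀ x, x ≠ p → ‖x - p‖ < r → infDist x D < κ ‖x - p‖ → x ∈ O

/-- `F` is holomorphic and bounded by some constant on `D`. -/
def BddHol {m : ℕ} (D : Set (V m)) (F : V m → ℂ) : Prop :=
  DifferentiableOn ℂ F D ∧ ∃ C : ℝ, ∀ z ∈ D, ‖F z‖ ≤ C

/-- The corona theorem for the data on `O ⊇ D`, with solutions on `D`: whenever `F_1, …, F_N` are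
bounded holomorphic functions on `O` with `∑ |F_j|² > δ` on `O` for some `δ > 0`, there are bounded
holomorphic functions `h_j` on `D` with `∑ F_j h_j = 1` on `D`. -/
def CoronaOn {m : ℕ} (O D : Set (V m)) : Prop :=
  ∀ (N : ℕ) (F : Fin N → V m → ℂ), (∀ j, BddHol O (F j)) →
    (∃ δ : ℝ, 0 < δ ∧ ∀ z ∈ O, δ < ∑ j, ‖F j z‖ ^ 2) →
      ∃ h : Fin N → V m → ℂ, (∀ j, BddHol D (h j)) ∧ ∀ z ∈ D, ∑ j, F j z * h j z = 1

/-- The corona theorem holds on `D`: whenever `F_1, …, F_N` are bounded holomorphic functions on `D`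
with `∑ |F_j|² > δ` on `D` for some `δ > 0`, there are bounded holomorphic `h_j` with
`∑ F_j h_j = 1` on `D`. -/
def CoronaTheorem {m : ℕ} (D : Set (V m)) : Prop := CoronaOn D D

/-- The Bezout equation `∑ F_j g_j = 1` has a holomorphic solution with `|g_j| ≤ C` on `D`. -/
def Solvable {m N : ℕ} (D : Set (V m)) (C : ℝ) (F : Fin N → V m → ℂ) : Prop :=
  ∃ g : Fin N → V m → ℂ, (∀ j, DifferentiableOn ℂ (g j) D) ∧ (∀ j, ∀ z ∈ D, ‖g j z‖ ≤ C) ∧
    ∀ z ∈ D, ∑ j, F j z * g j z = 1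

/-- Corona data on `D`: holomorphic functions with `|F_j| ≤ 1` and `∑ |F_j| ≥ δ`. -/
def Data {m N : ℕ} (D : Set (V m)) (δ : ℝ) (F : Fin N → V m → ℂ) : Prop :=
  (∀ j, DifferentiableOn ℂ (F j) D) ∧ (∀ j, ∀ z ∈ D, ‖F j z‖ ≤ 1) ∧ ∀ z ∈ D, δ ≤ ∑ j, ‖F j z‖

/-- All data on the unit balls of dimension `≤ m` (`N` functions, constant `δ`) are solvable with the
bound `C`. -/
def Balls (m N : ℕ) (δ C : ℝ) : Prop :=
  ∀ k ≤ m, ∀ F : Fin N → V k → ℂ, Data (Ball k) δ F → Solvable (Ball k) C F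

/-- `ρ` is of class `C^k` on `U`. -/
def Smooth {m : ℕ} (k : WithTop ℕ∞) (ρ : V m → ℝ) (U : Set (V m)) : Prop := ContDiffOn ℝ k ρ U

/-- The derivative of `ρ` at `p` in the direction `v`. -/
noncomputable def dr {m : ℕ} (ρ : V m → ℝ) (p v : V m) : ℝ := fderiv ℝ ρ p v

/-- `D = {ρ < 0}` for the function `ρ`, which is of class `C^k` on the neighbourhood `U` of the closure
of `D`, and the derivative of `ρ` does not vanish on the boundary. -/
def Defining {m : ℕ} (k : WithTop ℕ∞) (D U : Set (V m)) (ρ : V m → ℝ) : Prop :=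
  IsOpen U ∧ closure D ⊆ U ∧ Smooth k ρ U ∧ D = {x ∈ U | ρ x < 0} ∧
    ∀ p ∈ frontier D, ∃ v, dr ρ p v ≠ 0

/-- Strictly pseudoconvex domains: bounded domains `{ρ < 0}`, `ρ` of class `C^∞` on a neighbourhood of
the closure, `dρ ≠ 0` on the boundary, with positive definite Levi form on the complex tangent
spaces of the boundary (the Levi form of `v` is a quarter of the sum of the second derivatives of
`ρ` in the directions `v` and `i v`). -/
def StrictlyPseudoconvex {m : ℕ} (D : Set (V m)) : Prop :=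
  IsOpen D ∧ IsConnected D ∧ Bornology.IsBounded D ∧
    ∃ (U : Set (V m)) (ρ : V m → ℝ), Defining ∞ D U ρ ∧ ∀ p ∈ frontier D, ∀ v : V m, v ≠ 0 →
      dr ρ p v = 0 → dr ρ p (Complex.I • v) = 0 →
        0 < dr (fun x => dr ρ x v) p v + dr (fun x => dr ρ x (Complex.I • v)) p (Complex.I • v)

/-- Bounded nonempty open sets with boundary of class `C³`. -/
def SmoothDomain {m : ℕ} (D : Set (V m)) : Prop :=
  IsOpen D ∧ D.Nonempty ∧ Bornology.IsBounded D ∧
    ∃ (U : Set (V m)) (ρ : V m → ℝ), Defining 3 D U ρ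

/-- `p` is a boundary point of `D` at maximal distance from some point `c`, and the boundary of `D` is
of class `C³` near `p`. -/
def Exposed {m : ℕ} (D : Set (V m)) (p : V m) : Prop :=
  p ∈ frontier D ∧ (∃ c, ∀ x ∈ D, ‖x - c‖ ≤ ‖p - c‖) ∧
    ∃ (U : Set (V m)) (ρ : V m → ℝ), IsOpen U ∧ p ∈ U ∧ Smooth 3 ρ U ∧
      (∀ x ∈ U, x ∈ D ↔ ρ x < 0) ∧ ∃ v, dr ρ p v ≠ 0

end Pool.Agent.H272.OSP
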