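import Mathlib
import Pool.Agent.H303.CB.Fin

/-!
Estimates of the quadratic form near `p`.
-/

set_option autoImplicit false

open Metric Set Filter Topology

namespace Pool.Agent.H272.OSP

open Pool.Agent.H303.CB Pool.Agent.H643.CB

variable {m : ℕ}

/-- `2`-homogeneous entire functions are Lipschitz on balls, with the right constants. -/
theorem q_lip {q : E m → ℂ} {C : ℝ} (qd : Differentiable ℂ q) (hC : 0 ≤ C)
    (qb : ∀ z, ‖q z‖ ≤ C * ‖z‖ ^ 2) {ρ : ℝ} {z z' : E m} (hz' : ‖z'‖ ≤ ρ)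
    (hzz : ‖z - z'‖ ≤ 2 * ρ) : ‖q z - q z'‖ ≤ 11 * (C + 1) * ρ * ‖z - z'‖ := by
  rcases eq_or_ne z z' with rfl | hne
  · simp
  have hu : 0 < ‖z - z'‖ := norm_pos_iff.2 (sub_ne_zero.2 hne)
  have hρ : 0 < ρ := by linarith
  set u := z - z' with hud
  set g : ℂ → ℂ := fun τ => q (z' + τ • u) with hg
  have hgd : Differentiable ℂ g := by
    intro τ
    have h1 : DifferentiableAt ℂ (fun τ : ℂ => z' + τ • u) τ := by fun_prop
    exact (qd _).comp τ h1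
  have h1 : MapsTo g (ball 0 (3 * ρ / ‖u‖)) (ball (g 0) (33 * (C + 1) * ρ ^ 2)) := by
    intro τ hτ
    rw [mem_ball_zero_iff, lt_div_iff₀ hu] at hτ
    have e1 : ‖z' + τ • u‖ ≤ 4 * ρ := by
      refine (norm_add_le _ _).trans ?_
      rw [norm_smul]
      linarith
    have e2 : ‖g τ‖ ≤ C * (4 * ρ) ^ 2 := (qb _).trans (by gcongr)
    have e3 : ‖g 0‖ ≤ C * (4 * ρ) ^ 2 := by
      rw [hg]
      simp only [zero_smul, add_zero]
      refine (qb _).trans ?_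
      have : ‖z'‖ ≤ 4 * ρ := by linarith
      gcongr
    rw [mem_ball, dist_eq_norm]
    refine (norm_sub_le _ _).trans_lt ?_
    have : 0 < ρ ^ 2 := by positivity
    nlinarith
  have h2 : (1 : ℂ) ∈ ball (0 : ℂ) (3 * ρ / ‖u‖) := by
    rw [mem_ball_zero_iff, norm_one, lt_div_iff₀ hu]
    linarith
  have h3 := Complex.dist_le_div_mul_dist_of_mapsTo_ball hgd.differentiableOn
    (h1.mono_right ball_subset_closedBall) h2
  have h4 : g 1 = q z := by rw [hg]; simp [hud]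
  have h5 : g 0 = q z' := by rw [hg]; simp
  rw [h4, h5, dist_eq_norm, dist_eq_norm, sub_zero, norm_one, mul_one] at h3
  refine h3.trans (le_of_eq ?_)
  field_simp
  ring

theorem norm_half {p x : E m} (hp : ‖p‖ = 1) :
    ‖x - (1 / 2 : ℂ) • p‖ ^ 2 = ‖x - p‖ ^ 2 - (wc p x).re + 1 / 4 := by
  have h1 := norm_x hp x
  have h2 := norm_sub_p hp x
  have h3 : ‖x - (1 / 2 : ℂ) • p‖ ^ 2 = ‖x‖ ^ 2 - 2 * (inner ℂ x ((1 / 2 : ℂ) • p) : ℂ).re +
      ‖(1 / 2 : ℂ) • p‖ ^ 2 := norm_sub_sq (𝕜 := ℂ) _ _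
  have h4 : (inner ℂ x ((1 / 2 : ℂ) • p) : ℂ).re = 1 / 2 * (1 - (wc p x).re) := by
    rw [inner_smul_right]
    have h5 : (inner ℂ x p : ℂ).re = (inner ℂ p x : ℂ).re := inner_re_symm (𝕜 := ℂ) _ _
    have h6 : ((1 / 2 : ℂ) * (inner ℂ x p : ℂ)).re = 1 / 2 * (inner ℂ x p : ℂ).re := by
      have : (1 / 2 : ℂ) = ((1 / 2 : ℝ) : ℂ) := by push_cast; rfl
      rw [this, Complex.re_ofReal_mul]
    rw [h6, h5, wc, Complex.sub_re, Complex.one_re]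
    ring
  have h7 : ‖(1 / 2 : ℂ) • p‖ ^ 2 = 1 / 4 := by
    rw [norm_smul, hp]
    norm_num
  rw [h3, h4, h7, h1, h2]
  ring

/-- the quadratic form -/
noncomputable def QQ (B : E m →L[ℂ] E m) (q : E m → ℂ) (Λ : E m →L[ℂ] ℂ) (a : ℝ) (p x : E m) : ℝ :=
  ‖B (zc p x)‖ ^ 2 + (q (zc p x)).re + (wc p x).im * (Λ (zc p x)).re + a * (wc p x).im ^ 2

theorem cont_wc (p : E m) : Continuous (wc p) := (diff_wc p).continuous

theorem cont_zc (p : E m) : Continuous (zc p) := (diff_zc p).continuous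

theorem cont_QQ (B : E m →L[ℂ] E m) {q : E m → ℂ} (hq : Differentiable ℂ q) (Λ : E m →L[ℂ] ℂ)
    (a : ℝ) (p : E m) : Continuous (QQ B q Λ a p) := by
  have h1 := cont_wc p
  have h2 := cont_zc p
  unfold QQ
  have h3 : Continuous fun x => (wc p x).im := Complex.continuous_im.comp h1
  have h4 : Continuous fun x => (q (zc p x)).re :=
    Complex.continuous_re.comp (hq.continuous.comp h2)
  have h5 : Continuous fun x => (Λ (zc p x)).re :=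
    Complex.continuous_re.comp (Λ.continuous.comp h2)
  have h6 : Continuous fun x => ‖B (zc p x)‖ ^ 2 := ((B.continuous.comp h2).norm).pow 2
  exact ((h6.add h4).add (h3.mul h5)).add ((h3.pow 2).const_mul a)

theorem real_fin {s Qx Qy sy δ δy d η C L RR RRy : ℝ} (hδ0 : 0 < δ) (hC : 0 ≤ C) (hL : 0 ≤ L)
    (hδd : δ ≤ d) (hd1 : d ≤ 1) (hη0 : 0 ≤ η) (hη : η ≤ δ ^ 2 * d) (hs : δ ^ 2 ≤ 2 * s)
    (hδy : δy ≤ 2 * δ) (hδy0 : 0 ≤ δy) (h1 : Qx ≤ Qy + L * δ * η)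
    (h2 : Qy < sy * (1 + C * δy) + C * δy * RRy) (h3 : sy ≤ s + η) (h4 : RRy ≤ 4 * δ ^ 2)
    (hRR : 0 ≤ RR) :
    Qx < s * (1 + (22 * C + 2 * L + 2) * d) + (22 * C + 2 * L + 2) * d * RR := by
  have hd0 : 0 < d := lt_of_lt_of_le hδ0 hδd
  have hδ1 : δ ≤ 1 := hδd.trans hd1
  have hs0 : 0 < s := by nlinarith
  have hδ2 : 0 < δ ^ 2 := by positivity
  have a1 : sy * (1 + C * δy) ≤ (s + η) * (1 + C * (2 * δ)) := by
    have e1 : sy * (1 + C * δy) ≤ (s + η) * (1 + C * δy) := by gcongr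
    have e2 : (s + η) * (1 + C * δy) ≤ (s + η) * (1 + C * (2 * δ)) := by gcongr
    exact e1.trans e2
  have a2 : C * δy * RRy ≤ C * (2 * δ) * (4 * δ ^ 2) := by
    have e1 : C * δy * RRy ≤ C * δy * (4 * δ ^ 2) := by gcongr
    have e2 : C * δy * (4 * δ ^ 2) ≤ C * (2 * δ) * (4 * δ ^ 2) := by gcongr
    exact e1.trans e2
  have a3 : η * (1 + C * (2 * δ)) ≤ δ ^ 2 * d * (1 + 2 * C) := by
    have e1 : η * (1 + C * (2 * δ)) ≤ δ ^ 2 * d * (1 + C * (2 * δ)) := by gcongr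
    have e2 : δ ^ 2 * d * (1 + C * (2 * δ)) ≤ δ ^ 2 * d * (1 + C * (2 * 1)) := by gcongr
    linarith
  have a4 : L * δ * η ≤ L * (δ ^ 2 * d) := by
    have e1 : L * δ * η ≤ L * 1 * (δ ^ 2 * d) := by gcongr
    linarith
  have a5 : C * (2 * δ) * (4 * δ ^ 2) ≤ 8 * C * (δ ^ 2 * d) := by
    have e1 : C * (2 * δ) * (4 * δ ^ 2) ≤ C * (2 * d) * (4 * δ ^ 2) := by gcongr
    linarith
  have a6 : s * (C * (2 * δ)) ≤ s * (C * (2 * d)) := by gcongr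
  have a7 : (1 + 10 * C + L) * (δ ^ 2 * d) ≤ (1 + 10 * C + L) * (2 * s * d) := by gcongr
  have a8 : 0 ≤ (22 * C + 2 * L + 2) * d * RR := by positivity
  nlinarith

section

variable {D : Set (E m)} {p : E m} {B B' : E m →L[ℂ] E m} {q : E m → ℂ}
  {Λ : E m →L[ℂ] ℂ} {a C r : ℝ}

theorem half_mem (hp : ‖p‖ = 1) {x : E m} (h : ‖x - (1 / 2 : ℂ) • p‖ ≤ 1 / 2) :
    ‖x - p‖ ^ 2 ≤ (wc p x).re := by
  have h1 := norm_half (x := x) hp
  have h2 : ‖x - (1 / 2 : ℂ) • p‖ ^ 2 ≤ (1 / 2) ^ 2 := pow_le_pow_left₀ (norm_nonneg _) h 2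
  linarith

theorem mem_ball_of (hp : ‖p‖ = 1) {x : E m} (h : ‖x - p‖ ^ 2 < 2 * (wc p x).re) :
    x ∈ ball (0 : E m) 1 := by
  have h1 := norm_x hp x
  have h2 := norm_sub_p hp x
  rw [mem_ball_zero_iff]
  nlinarith [norm_nonneg x]

end

end Pool.Agent.H272.OSP
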