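import Mathlib
import Pool.Agent.H303.CB.T4

/-!
The map `F` of `Pool.Agent.H303.CB` with a general peak function, at one point. The proof is the one of
`Pool.Agent.H643.CB.t_map` (helper303 and helper643).
-/

set_option autoImplicit false

open Metric Set Filter Topology

namespace Pool.Agent.H272.OSP

open Pool.Agent.H303.CB Pool.Agent.H643.CB

/-- constants -/
noncomputable def c1 (C : ℝ) {m : ℕ} (Λ : E m →L[ℂ] ℂ) : ℝ := 2 * C + ‖Λ‖ + 1

/-- constants -/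
noncomputable def c7 (C a : ℝ) {m : ℕ} (B : E m →L[ℂ] E m) (Λ : E m →L[ℂ] ℂ) : ℝ :=
  2 * C + (c1 C Λ + C) * (‖B‖ ^ 2 + C + ‖Λ‖ + |a|) + c1 C Λ + 1

/-- constants -/
noncomputable def c8 (C : ℝ) {m : ℕ} (B : E m →L[ℂ] E m) (Λ : E m →L[ℂ] ℂ) : ℝ :=
  4 * ‖B‖ ^ 2 + 4 * C + 4 * ‖Λ‖ + 1

/-- the normal component of the map `F`, at one point -/
noncomputable def WN {m : ℕ} (p : E m) (q : E m → ℂ) (Λ : E m →L[ℂ] ℂ) (n : ℂ) (x : E m) : ℂ :=
  wc p x - n ^ 2 * q (zc p x) + Complex.I * n * wc p x * Λ (zc p x)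

theorem core {m : ℕ} {D : Set (E m)} {p : E m} {B B' : E m →L[ℂ] E m} {q : E m → ℂ}
    {Λ : E m →L[ℂ] ℂ} {a C₀ r₀ : ℝ} (hD : LD D p B B' q Λ a C₀ r₀) {C : ℝ} (hCC : C₀ ≤ C)
    {β : ℝ} (hβ0 : 0 < β) (hβC : 4 * β * c1 C Λ ≤ 1 / 4) {x : E m} (hx1 : ‖x‖ < 1) {n : ℂ}
    (hμ0 : 0 < ‖n‖) (hμ1 : ‖n‖ ≤ 1) (hnμ : ‖n - (‖n‖ : ℝ)‖ ≤ 4 * β * (1 - ‖n‖))
    (hcase : (∃ d : ℝ, ‖x - p‖ ≤ d ∧ c7 C a B Λ * d ≤ 1 / 8 ∧ 4 * c7 C a B Λ * d ≤ 1 - ‖n‖ ∧
      ‖B (zc p x)‖ ^ 2 + (q (zc p x)).re + (wc p x).im * (Λ (zc p x)).re + a * (wc p x).im ^ 2 <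
        (wc p x).re * (1 + C * d) + C * d * (‖zc p x‖ ^ 2 + (wc p x).im ^ 2)) ∨
      ∃ r1 : ℝ, 0 < r1 ∧ r1 ≤ ‖x - p‖ ∧ ‖n‖ * c8 C B Λ < r1 ^ 2 / 2) :
    ‖B (n • zc p x)‖ ^ 2 < (WN p q Λ n x).re := by
  have hp := hD.np
  have hC : 0 ≤ C := hD.C0.trans hCC
  -- constants
  set C1 : ℝ := c1 C Λ with hC1
  set C4 : ℝ := ‖B‖ ^ 2 + C + ‖Λ‖ + |a| with hC4
  have hC1' : 1 ≤ C1 := by rw [hC1, c1]; have := norm_nonneg Λ; linarith
  have hC4' : 0 ≤ C4 := by rw [hC4]; positivity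
  set C7 : ℝ := c7 C a B Λ with hC7
  have hC7e : C7 = 2 * C + (C1 + C) * C4 + C1 + 1 := rfl
  have hC7' : 1 ≤ C7 := by
    rw [hC7e]
    have : 0 ≤ (C1 + C) * C4 := by positivity
    linarith
  set C8 : ℝ := c8 C B Λ with hC8
  have hC8e : C8 = 4 * ‖B‖ ^ 2 + 4 * C + 4 * ‖Λ‖ + 1 := rfl
  have hC80 : 0 < C8 := by rw [hC8e]; positivity
  set z : E m := zc p x with hz
  set w : ℂ := wc p x with hw
  set s : ℝ := w.re with hs
  set t : ℝ := w.im with ht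
  set δ : ℝ := ‖x - p‖ with hδ
  have hδ2 : δ ^ 2 = ‖z‖ ^ 2 + ‖w‖ ^ 2 := norm_sub_p hp x
  have hδs : δ ^ 2 < 2 * s := by
    have h1 := norm_x hp x
    have h2 : ‖x‖ ^ 2 < 1 := by
      rw [sq_lt_one_iff₀ (norm_nonneg x)]
      exact hx1
    rw [h1] at h2
    rw [hδ2]
    linarith
  have hs0 : 0 < s := by
    have := sq_nonneg δ
    linarith
  have hsw : s ≤ ‖w‖ := (le_abs_self _).trans (Complex.abs_re_le_norm w)
  have htw : |t| ≤ ‖w‖ := Complex.abs_im_le_norm w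
  have hδ0 : 0 ≤ δ := norm_nonneg _
  have hzδ : ‖z‖ ≤ δ := by
    apply le_of_sq_le_sq _ hδ0
    have := sq_nonneg ‖w‖
    linarith
  have hwδ : ‖w‖ ≤ δ := by
    apply le_of_sq_le_sq _ hδ0
    have := sq_nonneg ‖z‖
    linarith
  have hδ22 : δ < 2 := by
    by_contra h
    push Not at h
    have h1 : 2 * δ ≤ δ * δ := mul_le_mul_of_nonneg_right h hδ0
    have h2 : δ ^ 2 = δ * δ := pow_two δ
    linarith
  have hz0 : inner ℂ p z = 0 := inner_zc hp x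
  -- the peak function
  set μ : ℝ := ‖n‖ with hμ
  have hn1 : ‖n‖ = μ := rfl
  -- the goal
  have hBz : ‖B (n • z)‖ ^ 2 = μ ^ 2 * ‖B z‖ ^ 2 := by
    rw [map_smul, norm_smul, hn1, mul_pow]
  have hWc : (WN p q Λ n x).re = s - (n ^ 2 * q z).re + (Complex.I * n * w * Λ z).re := by
    unfold WN
    rw [Complex.add_re, Complex.sub_re]
  rw [hBz, hWc]
  have hqz : ‖q z‖ ≤ C * ‖z‖ ^ 2 :=
    (hD.qb z).trans (mul_le_mul_of_nonneg_right hCC (sq_nonneg _))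
  have hΛz : ‖Λ z‖ ≤ ‖Λ‖ * ‖z‖ := Λ.le_opNorm z
  have hBz' : ‖B z‖ ≤ ‖B‖ * ‖z‖ := B.le_opNorm z
  rcases hcase with ⟨d, hδd, hdC7, hμδ, hout⟩ | ⟨r1, hr10, hnear, hμC⟩
  · -- near part
    have hd0 : 0 ≤ d := hδ0.trans hδd
    set R : ℝ := ‖z‖ ^ 2 + t ^ 2 with hR
    set Q : ℝ := ‖B z‖ ^ 2 + (q z).re + t * (Λ z).re + a * t ^ 2 with hQ
    have hR0 : 0 ≤ R := by positivity
    have htz : |t| * ‖z‖ ≤ R := by
      have h2 := two_mul_le_add_sq |t| ‖z‖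
      rw [sq_abs] at h2
      have h3 : 0 ≤ |t| * ‖z‖ := by positivity
      rw [hR]
      linarith
    have hqre : |(q z).re| ≤ C * ‖z‖ ^ 2 := (Complex.abs_re_le_norm _).trans hqz
    have hΛre : |(Λ z).re| ≤ ‖Λ‖ * ‖z‖ := (Complex.abs_re_le_norm _).trans hΛz
    have hzR : ‖z‖ ^ 2 ≤ R := le_add_of_nonneg_right (sq_nonneg t)
    have htR : t ^ 2 ≤ R := le_add_of_nonneg_left (sq_nonneg ‖z‖)
    have htΛ : |t * (Λ z).re| ≤ ‖Λ‖ * R := by
      rw [abs_mul]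
      calc |t| * |(Λ z).re| ≤ |t| * (‖Λ‖ * ‖z‖) := mul_le_mul_of_nonneg_left hΛre (abs_nonneg _)
        _ = ‖Λ‖ * (|t| * ‖z‖) := by ring
        _ ≤ ‖Λ‖ * R := mul_le_mul_of_nonneg_left htz (norm_nonneg _)
    have hQ1 : R / 2 ≤ Q := by
      have := hD.pos z t hz0
      linarith
    have hQ2 : Q ≤ C4 * R := by
      have e1 : ‖B z‖ ^ 2 ≤ ‖B‖ ^ 2 * R := by
        calc ‖B z‖ ^ 2 ≤ (‖B‖ * ‖z‖) ^ 2 := pow_le_pow_left₀ (norm_nonneg _) hBz' 2
          _ = ‖B‖ ^ 2 * ‖z‖ ^ 2 := by ring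
          _ ≤ ‖B‖ ^ 2 * R := mul_le_mul_of_nonneg_left hzR (by positivity)
      have e2 : (q z).re ≤ C * R := (le_abs_self _).trans (hqre.trans
        (mul_le_mul_of_nonneg_left hzR hC))
      have e3 : t * (Λ z).re ≤ ‖Λ‖ * R := (le_abs_self _).trans htΛ
      have e4 : a * t ^ 2 ≤ |a| * R := by
        calc a * t ^ 2 ≤ |a| * t ^ 2 := mul_le_mul_of_nonneg_right (le_abs_self _) (sq_nonneg _)
          _ ≤ |a| * R := mul_le_mul_of_nonneg_left htR (abs_nonneg _)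
      rw [hC4]
      linarith
    have hout : Q < s * (1 + C * d) + C * d * R := hout
    have hδ1 : C1 * d < 1 := by
      have e1 : C1 ≤ C7 := by
        rw [hC7e]
        have : 0 ≤ (C1 + C) * C4 := by positivity
        linarith
      have e2 : C1 * d ≤ C7 * d := mul_le_mul_of_nonneg_right e1 hd0
      linarith
    have hδμ : (2 * C + (C1 + C) * C4) * d ≤ (1 - μ) / 4 := by
      have e1 : 2 * C + (C1 + C) * C4 ≤ C7 := by rw [hC7e]; linarith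
      have e2 := mul_le_mul_of_nonneg_right e1 hd0
      linarith
    have hmain := near_ineq hs0 hR0 hQ1 hQ2 hμ0 hμ1 hd0 hC hC1' hβ0 hβC hδ1 hδμ hout
    -- the estimate of the left side
    have ha : 0 ≤ a := by
      have h1 := hD.pos 0 1 (by simp)
      have h2 : q 0 = 0 := by
        have := hD.qh 0 0
        simpa using this
      rw [h2] at h1
      simp at h1
      linarith
    have hA : 0 ≤ ‖B z‖ ^ 2 + (q z).re := by
      have h1 := hD.pos z 0 hz0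
      have h2 : 0 ≤ ‖z‖ ^ 2 := by positivity
      simp at h1
      linarith
    have hn2μ : ‖n ^ 2 - ((μ : ℝ) : ℂ) ^ 2‖ ≤ 2 * (4 * β * (1 - μ)) := by
      have e1 : n ^ 2 - ((μ : ℝ) : ℂ) ^ 2 = (n + (μ : ℝ)) * (n - (μ : ℝ)) := by ring
      rw [e1, norm_mul]
      have e2 : ‖n + (μ : ℝ)‖ ≤ 2 := by
        refine (norm_add_le _ _).trans ?_
        rw [hn1, Complex.norm_real, Real.norm_of_nonneg hμ0.le]
        linarith
      exact mul_le_mul e2 hnμ (norm_nonneg _) (by norm_num)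
    have t1 : (n ^ 2 * q z).re ≤ μ ^ 2 * (q z).re + 2 * (4 * β * (1 - μ)) * (C * ‖z‖ ^ 2) := by
      have e1 : (n ^ 2 * q z).re = μ ^ 2 * (q z).re + ((n ^ 2 - ((μ : ℝ) : ℂ) ^ 2) * q z).re := by
        have e2 : n ^ 2 * q z = ((μ ^ 2 : ℝ) : ℂ) * q z + (n ^ 2 - ((μ : ℝ) : ℂ) ^ 2) * q z := by
          push_cast; ring
        rw [e2, Complex.add_re, Complex.re_ofReal_mul]
      rw [e1]
      have e3 : ((n ^ 2 - ((μ : ℝ) : ℂ) ^ 2) * q z).re ≤ 2 * (4 * β * (1 - μ)) * (C * ‖z‖ ^ 2) := by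
        refine (Complex.re_le_norm _).trans ?_
        rw [norm_mul]
        exact mul_le_mul hn2μ hqz (norm_nonneg _) (by
          have : 0 ≤ 1 - μ := by linarith
          positivity)
      linarith
    have t2 : -(Complex.I * n * w * Λ z).re ≤ μ * (t * (Λ z).re) +
        4 * β * (1 - μ) * (‖Λ‖ * (|t| * ‖z‖)) + s * μ * (‖Λ‖ * ‖z‖) := by
      have e1 : -(Complex.I * n * w * Λ z) = ((μ * t : ℝ) : ℂ) * Λ z +
          ((t : ℂ) * (n - (μ : ℝ))) * Λ z - (Complex.I * s * n) * Λ z := by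
        have e2 : w = s + t * Complex.I := (Complex.re_add_im w).symm
        have e3 : -(Complex.I * n * w * Λ z) = -(Complex.I * n * (s + t * Complex.I) * Λ z) := by
          rw [← e2]
        rw [e3]
        push_cast
        linear_combination (-(t : ℂ) * n * Λ z) * Complex.I_sq
      have e4 : -(Complex.I * n * w * Λ z).re = (-(Complex.I * n * w * Λ z)).re := by
        rw [Complex.neg_re]
      rw [e4, e1, Complex.sub_re, Complex.add_re, Complex.re_ofReal_mul]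
      have e5 : (((t : ℂ) * (n - (μ : ℝ))) * Λ z).re ≤
          4 * β * (1 - μ) * (‖Λ‖ * (|t| * ‖z‖)) := by
        refine (Complex.re_le_norm _).trans ?_
        rw [norm_mul, norm_mul, Complex.norm_real, Real.norm_eq_abs]
        have e6 : 0 ≤ 1 - μ := by linarith
        calc |t| * ‖n - (μ : ℝ)‖ * ‖Λ z‖ ≤ |t| * (4 * β * (1 - μ)) * (‖Λ‖ * ‖z‖) := by
              refine mul_le_mul ?_ hΛz (norm_nonneg _) (by positivity)
              exact mul_le_mul_of_nonneg_left hnμ (abs_nonneg _)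
          _ = _ := by ring
      have e7 : -((Complex.I * s * n) * Λ z).re ≤ s * μ * (‖Λ‖ * ‖z‖) := by
        refine (neg_le_abs _).trans ((Complex.abs_re_le_norm _).trans ?_)
        rw [norm_mul, norm_mul, norm_mul, Complex.norm_I, Complex.norm_real,
          Real.norm_of_nonneg hs0.le, hn1, one_mul]
        exact mul_le_mul_of_nonneg_left hΛz (by positivity)
      linarith
    have hconv : μ ^ 2 * (‖B z‖ ^ 2 + (q z).re) + μ * (t * (Λ z).re) ≤ μ * Q := by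
      have e1 : μ ^ 2 * (‖B z‖ ^ 2 + (q z).re) ≤ μ * (‖B z‖ ^ 2 + (q z).re) := by
        refine mul_le_mul_of_nonneg_right ?_ hA
        rw [pow_two]
        exact mul_le_of_le_one_left hμ0.le hμ1
      have e2 : 0 ≤ μ * (a * t ^ 2) := by positivity
      rw [hQ]
      linarith
    have t3 : 2 * (4 * β * (1 - μ)) * (C * ‖z‖ ^ 2) +
        4 * β * (1 - μ) * (‖Λ‖ * (|t| * ‖z‖)) ≤ 4 * β * C1 * (1 - μ) * R := by
      have e0 : 0 ≤ 1 - μ := by linarith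
      have e1 : C * ‖z‖ ^ 2 ≤ C * R := mul_le_mul_of_nonneg_left hzR hC
      have e2 : ‖Λ‖ * (|t| * ‖z‖) ≤ ‖Λ‖ * R := mul_le_mul_of_nonneg_left htz (norm_nonneg _)
      have e3 : 2 * (C * ‖z‖ ^ 2) + ‖Λ‖ * (|t| * ‖z‖) ≤ C1 * R := by
        have hC1e : C1 = 2 * C + ‖Λ‖ + 1 := rfl
        rw [hC1e]
        linarith
      have e4 := mul_le_mul_of_nonneg_left e3 (show 0 ≤ 4 * β * (1 - μ) by positivity)
      linarith
    have t4 : s * μ * (‖Λ‖ * ‖z‖) ≤ s * μ * C1 * d := by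
      have e1 : ‖Λ‖ * ‖z‖ ≤ C1 * d := by
        refine mul_le_mul ?_ (hzδ.trans hδd) (norm_nonneg _) (by positivity)
        have hC1e : C1 = 2 * C + ‖Λ‖ + 1 := rfl
        rw [hC1e]
        linarith
      have e2 := mul_le_mul_of_nonneg_left e1 (show 0 ≤ s * μ by positivity)
      linarith
    linarith
  · -- far part
    have hs1 : r1 ^ 2 / 2 < s := by
      have : r1 ^ 2 ≤ δ ^ 2 := pow_le_pow_left₀ hr10.le hnear 2
      linarith
    have hμ2 : μ ^ 2 ≤ μ := by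
      rw [pow_two]
      exact mul_le_of_le_one_left hμ0.le hμ1
    have hz2 : ‖z‖ ^ 2 ≤ 4 := by
      have : ‖z‖ ^ 2 ≤ 2 ^ 2 := pow_le_pow_left₀ (norm_nonneg z) (hzδ.trans hδ22.le) 2
      linarith
    have f1 : μ ^ 2 * ‖B z‖ ^ 2 ≤ μ * (4 * ‖B‖ ^ 2) := by
      have e1 : ‖B z‖ ^ 2 ≤ 4 * ‖B‖ ^ 2 := by
        calc ‖B z‖ ^ 2 ≤ (‖B‖ * ‖z‖) ^ 2 := pow_le_pow_left₀ (norm_nonneg _) hBz' 2
          _ = ‖B‖ ^ 2 * ‖z‖ ^ 2 := by ring
          _ ≤ ‖B‖ ^ 2 * 4 := mul_le_mul_of_nonneg_left hz2 (by positivity)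
          _ = _ := by ring
      exact mul_le_mul hμ2 e1 (by positivity) hμ0.le
    have f2 : (n ^ 2 * q z).re ≤ μ * (4 * C) := by
      refine (Complex.re_le_norm _).trans ?_
      rw [norm_mul, norm_pow, hn1]
      have e1 : ‖q z‖ ≤ 4 * C := by
        have := mul_le_mul_of_nonneg_left hz2 hC
        linarith
      exact mul_le_mul hμ2 e1 (norm_nonneg _) hμ0.le
    have f3 : -(Complex.I * n * w * Λ z).re ≤ μ * (4 * ‖Λ‖) := by
      refine (neg_le_abs _).trans ((Complex.abs_re_le_norm _).trans ?_)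
      rw [norm_mul, norm_mul, norm_mul, Complex.norm_I, hn1, one_mul]
      have e1 : ‖Λ z‖ ≤ ‖Λ‖ * 2 := hΛz.trans (mul_le_mul_of_nonneg_left (by linarith) (norm_nonneg _))
      calc μ * ‖w‖ * ‖Λ z‖ ≤ μ * 2 * (‖Λ‖ * 2) :=
            mul_le_mul (mul_le_mul_of_nonneg_left (by linarith) hμ0.le) e1 (norm_nonneg _)
              (by positivity)
        _ = _ := by ring
    have f4 : μ * (4 * ‖B‖ ^ 2) + μ * (4 * C) + μ * (4 * ‖Λ‖) ≤ μ * C8 := by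
      have e1 : μ * C8 = μ * (4 * ‖B‖ ^ 2) + μ * (4 * C) + μ * (4 * ‖Λ‖) + μ := by
        rw [hC8e]; ring
      linarith
    linarith

end Pool.Agent.H272.OSP
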