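import Mathlib
import Pool.Agent.H303.CB.T4

/-!
Peak functions on the right half plane which tend to `1` at `0` as slowly as we like.
-/

set_option autoImplicit false

open Metric Set Filter Topology

namespace Pool.Agent.H272.OSP

open Pool.Agent.H643.CB

/-- `w / (w + b)` -/
theorem mob_re {w : ℂ} (hw : 0 < w.re) {b : ℝ} (hb : 0 < b) :
    0 < (w / (w + b)).re ∧ ‖w / (w + b)‖ ≤ 1 ∧ ‖w / (w + b)‖ ≤ ‖w‖ / b ∧
      (b ≤ ‖w‖ → 1 / 2 ≤ ‖w / (w + b)‖) := by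
  have h1 : 0 < (w + b).re := by simp; linarith
  have hne : w + b ≠ 0 := fun h => by rw [h] at h1; simp at h1
  have hn : 0 < ‖w + b‖ := norm_pos_iff.2 hne
  have hw0 : 0 < ‖w‖ := by
    rw [norm_pos_iff]; rintro rfl; simp at hw
  have h2 : ‖w‖ ≤ ‖w + b‖ := by
    have e1 : ‖w + b‖ ^ 2 = ‖w‖ ^ 2 + 2 * b * w.re + b ^ 2 := by
      rw [← Complex.normSq_eq_norm_sq, ← Complex.normSq_eq_norm_sq, Complex.normSq_apply,
        Complex.normSq_apply]
      simp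
      ring
    have e2 : 0 < 2 * b * w.re := by positivity
    have e3 : ‖w‖ ^ 2 ≤ ‖w + b‖ ^ 2 := by nlinarith [sq_nonneg b]
    exact le_of_sq_le_sq e3 hn.le
  have h3 : b ≤ ‖w + b‖ := by
    have := Complex.re_le_norm (w + b)
    simp at this
    linarith
  refine ⟨?_, ?_, ?_, ?_⟩
  · have e1 : (w / (w + b)).re = (‖w‖ ^ 2 + b * w.re) / ‖w + b‖ ^ 2 := by
      rw [Complex.div_re, ← Complex.normSq_eq_norm_sq, ← Complex.normSq_eq_norm_sq,
        Complex.normSq_apply w]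
      simp
      ring
    rw [e1]
    positivity
  · rw [norm_div, div_le_one hn]
    exact h2
  · rw [norm_div]
    exact div_le_div_of_nonneg_left (norm_nonneg _) hb h3
  · intro h4
    rw [norm_div, le_div_iff₀ hn]
    have e1 : ‖w + b‖ ≤ ‖w‖ + b := by
      refine (norm_add_le _ _).trans ?_
      rw [Complex.norm_real, Real.norm_eq_abs, abs_of_pos hb]
    linarith

/-- the function `h` -/
noncomputable def tm (β : ℝ) (b : ℕ → ℝ) (j : ℕ) (w : ℂ) : ℂ :=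
  (((1 / 2 : ℝ) ^ j : ℝ) : ℂ) * (w / (w + b j)) ^ (β : ℂ)

/-- the function `h` -/
noncomputable def hh (β : ℝ) (b : ℕ → ℝ) (w : ℂ) : ℂ := ∑' j, tm β b j w

section

variable {β : ℝ} {b : ℕ → ℝ} (hβ : 0 < β) (hβ4 : β ≤ 1 / 4) (hb : ∀ j, 0 < b j) {w : ℂ}
  (hw : 0 < w.re)
include hβ hβ4 hb hw

theorem tm_est (j : ℕ) : (1 / 2 : ℝ) ^ j / 2 * ‖w / (w + b j)‖ ^ β ≤ (tm β b j w).re ∧
    |(tm β b j w).im| ≤ 4 * β * (tm β b j w).re :=
  pow_est (by positivity) hβ hβ4 (mob_re hw (hb j)).1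

omit hβ hβ4 hb hw in
theorem tm_norm (j : ℕ) : ‖tm β b j w‖ = (1 / 2 : ℝ) ^ j * ‖w / (w + b j)‖ ^ β := by
  unfold tm
  rw [norm_mul, Complex.norm_real, Real.norm_of_nonneg (by positivity), Complex.norm_cpow_real]

theorem tm_le (j : ℕ) : ‖tm β b j w‖ ≤ (1 / 2 : ℝ) ^ j := by
  rw [tm_norm]
  exact mul_le_of_le_one_right (by positivity)
    (Real.rpow_le_one (norm_nonneg _) (mob_re hw (hb j)).2.1 hβ.le)

theorem tm_sum : Summable fun j => tm β b j w :=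
  Summable.of_norm_bounded (summable_geometric_of_lt_one (by norm_num) (by norm_num))
    (fun j => tm_le hβ hβ4 hb hw j)

theorem hh_im : |(hh β b w).im| ≤ 4 * β * (hh β b w).re := by
  have hs := tm_sum hβ hβ4 hb hw
  have h1 : HasSum (fun j => (tm β b j w).re) (hh β b w).re := Complex.hasSum_re hs.hasSum
  have h2 : HasSum (fun j => (tm β b j w).im) (hh β b w).im := Complex.hasSum_im hs.hasSum
  have h3 := h1.mul_left (4 * β)
  rw [abs_le]
  constructor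
  · have h4 := h3.neg
    refine hasSum_le (fun j => ?_) h4 h2
    exact (abs_le.1 (tm_est hβ hβ4 hb hw j).2).1
  · exact hasSum_le (fun j => (abs_le.1 (tm_est hβ hβ4 hb hw j).2).2) h2 h3

theorem hh_re (j : ℕ) (hj : b j ≤ ‖w‖) : (1 / 2 : ℝ) ^ j / 4 ≤ (hh β b w).re := by
  have hs := tm_sum hβ hβ4 hb hw
  have h1 : HasSum (fun j => (tm β b j w).re) (hh β b w).re := Complex.hasSum_re hs.hasSum
  have h0 : ∀ i, 0 ≤ (tm β b i w).re := fun i =>
    le_trans (by positivity) (tm_est hβ hβ4 hb hw i).1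
  have h2 : (tm β b j w).re ≤ (hh β b w).re := le_hasSum h1 j (fun i _ => h0 i)
  refine le_trans ?_ h2
  refine le_trans ?_ (tm_est hβ hβ4 hb hw j).1
  have h3 : (1 / 2 : ℝ) ≤ ‖w / (w + b j)‖ ^ β := by
    have h4 := (mob_re hw (hb j)).2.2.2 hj
    calc (1 / 2 : ℝ) = (1 / 2) ^ (1 : ℝ) := (Real.rpow_one _).symm
      _ ≤ (1 / 2) ^ β := Real.rpow_le_rpow_of_exponent_ge (by norm_num) (by norm_num)
          (by linarith)
      _ ≤ _ := Real.rpow_le_rpow (by norm_num) h4 hβ.le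
  have h5 : 0 < (1 / 2 : ℝ) ^ j := by positivity
  nlinarith

theorem hh_re0 : 0 ≤ (hh β b w).re := by
  have h1 := hh_im hβ hβ4 hb hw
  have h2 := abs_nonneg (hh β b w).im
  by_contra h3
  push Not at h3
  nlinarith

end

theorem hh_diff {β : ℝ} {b : ℕ → ℝ} (hβ : 0 < β) (hβ4 : β ≤ 1 / 4) (hb : ∀ j, 0 < b j) {w : ℂ}
    (hw : 0 < w.re) : DifferentiableAt ℂ (hh β b) w := by
  have hU : IsOpen {w : ℂ | 0 < w.re} := isOpen_lt continuous_const Complex.continuous_re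
  have h1 : DifferentiableOn ℂ (hh β b) {w : ℂ | 0 < w.re} := by
    refine Complex.differentiableOn_tsum_of_summable_norm (u := fun j => (1 / 2 : ℝ) ^ j)
      (summable_geometric_of_lt_one (by norm_num) (by norm_num)) (fun j => ?_) hU
      (fun j w hw => tm_le hβ hβ4 hb hw j)
    intro w hw
    refine DifferentiableAt.differentiableWithinAt ?_
    have hre := mob_re (w := w) hw (hb j)
    have hne : w + b j ≠ 0 := by
      intro h
      have h2 : 0 < (w + b j).re := by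
        have : 0 < w.re := hw
        have := hb j
        simp
        linarith
      rw [h] at h2
      simp at h2
    have h3 : DifferentiableAt ℂ (fun w : ℂ => w / (w + b j)) w :=
      differentiableAt_id.div (differentiableAt_id.add_const _) hne
    exact (h3.cpow_const (Or.inl hre.1)).const_mul _
  exact h1.differentiableAt (hU.mem_nhds hw)

theorem hh_tendsto {β : ℝ} {b : ℕ → ℝ} (hβ : 0 < β) (hβ4 : β ≤ 1 / 4) (hb : ∀ j, 0 < b j)
    {u : ℕ → ℂ} (hu : Tendsto u atTop (𝓝 0)) (hu0 : ∀ i, 0 < (u i).re) :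
    Tendsto (fun i => hh β b (u i)) atTop (𝓝 0) := by
  have h1 : Tendsto (fun i => ∑' j, tm β b j (u i)) atTop (𝓝 (∑' j : ℕ, (0 : ℂ))) := by
    refine tendsto_tsum_of_dominated_convergence (bound := fun j => (1 / 2 : ℝ) ^ j)
      (summable_geometric_of_lt_one (by norm_num) (by norm_num)) (fun j => ?_)
      (Eventually.of_forall fun i j => tm_le hβ hβ4 hb (hu0 i) j)
    rw [tendsto_zero_iff_norm_tendsto_zero]
    have h2 : Tendsto (fun i => (‖u i‖ / b j) ^ β) atTop (𝓝 0) := by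
      have h3 : Tendsto (fun i => ‖u i‖ / b j) atTop (𝓝 0) := by
        have := hu.norm.div_const (b j)
        simpa using this
      have h4 := h3.rpow_const (p := β) (Or.inr hβ.le)
      rwa [Real.zero_rpow hβ.ne'] at h4
    refine squeeze_zero (fun i => norm_nonneg _) (fun i => ?_) h2
    rw [tm_norm]
    have h5 : ‖u i / (u i + b j)‖ ^ β ≤ (‖u i‖ / b j) ^ β :=
      Real.rpow_le_rpow (norm_nonneg _) (mob_re (hu0 i) (hb j)).2.2.1 hβ.le
    have h6 : (1 / 2 : ℝ) ^ j ≤ 1 := pow_le_one₀ (by norm_num) (by norm_num)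
    calc (1 / 2 : ℝ) ^ j * ‖u i / (u i + b j)‖ ^ β ≤ 1 * (‖u i‖ / b j) ^ β :=
          mul_le_mul h6 h5 (by positivity) zero_le_one
      _ = _ := one_mul _
  simpa [hh] using h1

/-- the peak function -/
noncomputable def pk (K : ℝ) (β : ℝ) (b : ℕ → ℝ) (w : ℂ) : ℂ := Complex.exp (-((K : ℂ) * hh β b w))

theorem pk_est {K β : ℝ} {b : ℕ → ℝ} (hK : 0 < K) (hβ : 0 < β) (hβ4 : β ≤ 1 / 4)
    (hb : ∀ j, 0 < b j) {w : ℂ} (hw : 0 < w.re) :
    ‖pk K β b w‖ = Real.exp (-(K * (hh β b w).re)) ∧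
    ‖pk K β b w - (‖pk K β b w‖ : ℝ)‖ ≤ 4 * β * (1 - ‖pk K β b w‖) := by
  set u : ℂ := (K : ℂ) * hh β b w with hu
  have hur : u.re = K * (hh β b w).re := by rw [hu, Complex.re_ofReal_mul]
  have hui : u.im = K * (hh β b w).im := by rw [hu, Complex.im_ofReal_mul]
  have h0 : ‖pk K β b w‖ = Real.exp (-(K * (hh β b w).re)) := by
    unfold pk
    rw [← hu, Complex.norm_exp, Complex.neg_re, hur]
  refine ⟨h0, ?_⟩
  have hX : 0 ≤ u.re := by
    rw [hur]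
    exact mul_nonneg hK.le (hh_re0 hβ hβ4 hb hw)
  have hY : |u.im| ≤ 4 * β * u.re := by
    rw [hur, hui, abs_mul, abs_of_pos hK]
    have := mul_le_mul_of_nonneg_left (hh_im hβ hβ4 hb hw) hK.le
    linarith
  have h1 : pk K β b w = (Real.exp (-u.re) : ℝ) * Complex.exp (Complex.I * ((-u.im : ℝ) : ℂ)) := by
    unfold pk
    rw [← hu, Complex.ofReal_exp, ← Complex.exp_add]
    congr 1
    apply Complex.ext <;> simp
  rw [h0, ← hur]
  have h2 : pk K β b w - (Real.exp (-u.re) : ℝ) =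
      (Real.exp (-u.re) : ℝ) * (Complex.exp (Complex.I * ((-u.im : ℝ) : ℂ)) - 1) := by
    rw [h1]; ring
  rw [h2, norm_mul, Complex.norm_real, Real.norm_of_nonneg (Real.exp_pos _).le]
  have h3 : ‖Complex.exp (Complex.I * ((-u.im : ℝ) : ℂ)) - 1‖ ≤ |u.im| := by
    refine Real.norm_exp_I_mul_ofReal_sub_one_le.trans ?_
    rw [Real.norm_eq_abs, abs_neg]
  calc Real.exp (-u.re) * ‖Complex.exp (Complex.I * ((-u.im : ℝ) : ℂ)) - 1‖
      ≤ Real.exp (-u.re) * (4 * β * u.re) :=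
        mul_le_mul_of_nonneg_left (h3.trans hY) (Real.exp_pos _).le
    _ = 4 * β * (u.re * Real.exp (-u.re)) := by ring
    _ ≤ 4 * β * (1 - Real.exp (-u.re)) := mul_le_mul_of_nonneg_left exp_mul_le (by positivity)

/-- **Slow peak functions.** -/
theorem exists_peak {e : ℝ → ℝ} (he : Tendsto e (𝓝[>] 0) (𝓝 0)) {β c7 c8 r : ℝ} (hβ : 0 < β)
    (hβ4 : β ≤ 1 / 4) (hc7 : 1 ≤ c7) (hc8 : 0 < c8) (hr : 0 < r) :
    ∃ (r1 : ℝ) (n : ℂ → ℂ), 0 < r1 ∧ r1 ≤ r ∧ (∀ w : ℂ, 0 < w.re → DifferentiableAt ℂ n w) ∧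
      (∀ u : ℕ → ℂ, Tendsto u atTop (𝓝 0) → (∀ i, 0 < (u i).re) →
        Tendsto (fun i => n (u i)) atTop (𝓝 1)) ∧
      (∀ w : ℂ, 0 < w.re → 0 < ‖n w‖ ∧ ‖n w‖ ≤ 1 ∧
        ‖n w - (‖n w‖ : ℝ)‖ ≤ 4 * β * (1 - ‖n w‖)) ∧
      (∀ (w : ℂ) (δ : ℝ), 0 < w.re → 0 < δ → δ < r1 → δ ^ 2 / 2 ≤ ‖w‖ →
        c7 * e δ ≤ 1 / 8 ∧ 4 * c7 * e δ ≤ 1 - ‖n w‖) ∧
      ∀ w : ℂ, 0 < w.re → r1 ^ 2 / 2 ≤ ‖w‖ → ‖n w‖ * c8 < r1 ^ 2 / 2 := by
  -- the radii
  have hex : ∀ j : ℕ, ∃ ρ : ℝ, 0 < ρ ∧ ρ ≤ 1 / ((j : ℝ) + 1) ∧ ∀ δ, 0 < δ → δ < ρ →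
      e δ < (1 / 2) ^ (j + 1) := by
    intro j
    have h1 := he.eventually_lt_const (show (0 : ℝ) < (1 / 2) ^ (j + 1) by positivity)
    rw [eventually_nhdsWithin_iff, Metric.eventually_nhds_iff] at h1
    obtain ⟨ρ, hρ, h2⟩ := h1
    refine ⟨min ρ (1 / ((j : ℝ) + 1)), lt_min hρ (by positivity), min_le_right _ _,
      fun δ h3 h4 => h2 ?_ h3⟩
    rw [dist_zero_right, Real.norm_eq_abs, abs_of_pos h3]
    exact h4.trans_le (min_le_left _ _)
  choose ρ hρ0 hρ1 hρ2 using hex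
  obtain ⟨b, hb⟩ : ∃ b : ℕ → ℝ, ∀ j, b j = ρ j ^ 2 / 2 := ⟨_, fun _ => rfl⟩
  have hb0 : ∀ j, 0 < b j := fun j => by rw [hb]; have := hρ0 j; positivity
  -- lower bound of `h`
  have hlow : ∀ (w : ℂ) (δ : ℝ), 0 < w.re → 0 < δ → δ < ρ 0 → δ ^ 2 / 2 ≤ ‖w‖ →
      e δ ≤ 4 * (hh β b w).re := by
    intro w δ hw hδ hδ0 hδw
    classical
    have h1 : ∃ j, ρ j ≤ δ := by
      have h2 : Tendsto (fun j : ℕ => 1 / ((j : ℝ) + 1)) atTop (𝓝 0) :=
        tendsto_one_div_add_atTop_nhds_zero_nat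
      obtain ⟨j, hj⟩ := (h2.eventually_lt_const hδ).exists
      exact ⟨j, (hρ1 j).trans hj.le⟩
    have h3 := Nat.find_spec h1
    set j := Nat.find h1 with hj
    have hj0 : j ≠ 0 := by
      intro h0
      rw [h0] at h3
      linarith
    obtain ⟨i, hi⟩ := Nat.exists_eq_succ_of_ne_zero hj0
    have h4 : ¬ ρ i ≤ δ := Nat.find_min h1 (by rw [← hj, hi]; exact Nat.lt_succ_self i)
    push Not at h4
    have h5 := hρ2 i δ hδ h4
    have h6 : b j ≤ ‖w‖ := by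
      rw [hb]
      refine le_trans ?_ hδw
      have := hρ0 j
      gcongr
    have h7 := hh_re hβ hβ4 hb0 hw j h6
    rw [hi] at h7
    have h8 : (1 / 2 : ℝ) ^ (i + 1) / 4 ≤ (hh β b w).re := h7
    generalize (1 / 2 : ℝ) ^ (i + 1) = Q at h5 h8
    linarith
  have hc78 : (0 : ℝ) < 1 / (8 * c7) := by positivity
  have h1 := he.eventually_lt_const hc78
  rw [eventually_nhdsWithin_iff, Metric.eventually_nhds_iff] at h1
  obtain ⟨r2, hr2, h2⟩ := h1
  obtain ⟨r1, hr1⟩ : ∃ r1 : ℝ, r1 = min (min r (ρ 0)) (min r2 1) := ⟨_, rfl⟩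
  have hr10 : 0 < r1 := by
    rw [hr1]
    exact lt_min (lt_min hr (hρ0 0)) (lt_min hr2 one_pos)
  have hr1r : r1 ≤ r := by rw [hr1]; exact (min_le_left _ _).trans (min_le_left _ _)
  have hr1ρ : r1 ≤ ρ 0 := by rw [hr1]; exact (min_le_left _ _).trans (min_le_right _ _)
  have hr1r2 : r1 ≤ r2 := by rw [hr1]; exact (min_le_right _ _).trans (min_le_left _ _)
  -- the far index
  have h3 : ∃ j, b j ≤ r1 ^ 2 / 2 := by
    have h2 : Tendsto (fun j : ℕ => 1 / ((j : ℝ) + 1)) atTop (𝓝 0) :=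
      tendsto_one_div_add_atTop_nhds_zero_nat
    obtain ⟨j, hj⟩ := (h2.eventually_lt_const hr10).exists
    refine ⟨j, ?_⟩
    rw [hb]
    have := hρ0 j
    have h4 : ρ j ≤ r1 := (hρ1 j).trans hj.le
    gcongr
  obtain ⟨j0, hj0⟩ := h3
  obtain ⟨K, hK⟩ : ∃ K : ℝ, K = 32 * c7 + 8 * c8 / r1 ^ 2 / (1 / 2) ^ j0 * 4 := ⟨_, rfl⟩
  have hK32 : 32 * c7 ≤ K := by
    rw [hK]
    have : 0 ≤ 8 * c8 / r1 ^ 2 / (1 / 2) ^ j0 * 4 := by positivity
    linarith
  have hK0 : 0 < K := by linarith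
  refine ⟨r1, pk K β b, hr10, hr1r, fun w hw => ?_, fun u hu hu0 => ?_, fun w hw => ?_,
    fun w δ hw hδ hδr hδw => ?_, fun w hw hwr => ?_⟩
  · unfold pk
    exact (((hh_diff hβ hβ4 hb0 hw).const_mul _).neg).cexp
  · have h4 := ((hh_tendsto hβ hβ4 hb0 hu hu0).const_mul (K : ℂ)).neg.cexp
    simpa [pk] using h4
  · obtain ⟨h4, h5⟩ := pk_est hK0 hβ hβ4 hb0 hw
    refine ⟨by rw [h4]; exact Real.exp_pos _, ?_, h5⟩
    rw [h4, Real.exp_le_one_iff]
    have := mul_nonneg hK0.le (hh_re0 hβ hβ4 hb0 hw)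
    linarith
  · have h4 : e δ < 1 / (8 * c7) := by
      refine h2 ?_ hδ
      rw [dist_zero_right, Real.norm_eq_abs, abs_of_pos hδ]
      exact hδr.trans_le hr1r2
    have h5 : c7 * e δ ≤ 1 / 8 := by
      have h6 : c7 * e δ ≤ c7 * (1 / (8 * c7)) := mul_le_mul_of_nonneg_left h4.le (by linarith)
      refine h6.trans (le_of_eq ?_)
      field_simp
    refine ⟨h5, ?_⟩
    have h6 := hlow w δ hw hδ (hδr.trans_le hr1ρ) hδw
    have h7 := hh_re0 hβ hβ4 hb0 hw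
    rw [(pk_est hK0 hβ hβ4 hb0 hw).1]
    rcases le_or_gt (e δ) 0 with h8 | h8
    · have h9 : Real.exp (-(K * (hh β b w).re)) ≤ 1 := by
        rw [Real.exp_le_one_iff]
        have := mul_nonneg hK0.le h7
        linarith
      nlinarith
    · refine one_sub_exp_ge (by positivity) ?_ (by linarith)
      have h9 : 32 * c7 * (hh β b w).re ≤ K * (hh β b w).re := mul_le_mul_of_nonneg_right hK32 h7
      nlinarith
  · rw [(pk_est hK0 hβ hβ4 hb0 hw).1]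
    have h4 := hh_re hβ hβ4 hb0 hw j0 (hj0.trans hwr)
    have h5 : 8 * c8 / r1 ^ 2 ≤ K * (hh β b w).re := by
      have h6 : 8 * c8 / r1 ^ 2 / (1 / 2) ^ j0 * 4 ≤ K := by rw [hK]; linarith
      calc 8 * c8 / r1 ^ 2 = 8 * c8 / r1 ^ 2 / (1 / 2) ^ j0 * 4 * ((1 / 2) ^ j0 / 4) := by
            field_simp
        _ ≤ K * (hh β b w).re := mul_le_mul h6 h4 (by positivity) hK0.le
    set X := K * (hh β b w).re with hX
    have h7 : X * Real.exp (-X) ≤ 1 - Real.exp (-X) := exp_mul_le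
    have h8 : 0 < Real.exp (-X) := Real.exp_pos _
    have h9 : X * Real.exp (-X) < 1 := by linarith
    have h10 : 8 * c8 / r1 ^ 2 * Real.exp (-X) < 1 :=
      (mul_le_mul_of_nonneg_right h5 h8.le).trans_lt h9
    have h11 : 8 * c8 / r1 ^ 2 * Real.exp (-X) = Real.exp (-X) * c8 / (r1 ^ 2 / 8) := by
      field_simp
    rw [h11, div_lt_one (by positivity)] at h10
    have : 0 < r1 ^ 2 := by positivity
    linarith

end Pool.Agent.H272.OSP
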