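import Mathlib
import Pool.Agent.H303.CB.Fin
import Pool.Agent.H272.SS.Exp
import Pool.Agent.H272.OSP.Core
import Pool.Agent.H272.OSP.Peak

/-!
Self-similarity data of `D` with a map `Φ` which is holomorphic on the larger domain `O` on which the
map `F` (with a slow peak function) takes values in the Siegel domain.
-/

set_option autoImplicit false

open Metric Set Filter Topology

namespace Pool.Agent.H272.OSP

open Pool.Agent.W732.Cor (mv)
open Pool.Agent.W721.Cor.Mv (inner_lt inner_perp)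
open Pool.Agent.H303.CB Pool.Agent.H272.SS

variable {m : ℕ}

theorem re_wc2 {p x : E m} (hp : ‖p‖ = 1) (hx : x ∈ ball (0 : E m) 1) :
    0 < (wc p x).re := by
  have h2 := inner_lt hp hx
  rw [wc, Complex.sub_re, Complex.one_re]
  have := Complex.re_le_norm (inner ℂ p x : ℂ)
  linarith

/-- the tangential component of the map -/
noncomputable def ZC (p : E m) (n : ℂ → ℂ) (x : E m) : E m := n (wc p x) • zc p x

/-- the normal component of the map -/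
noncomputable def WC (p : E m) (q : E m → ℂ) (Λ : E m →L[ℂ] ℂ) (n : ℂ → ℂ) (x : E m) : ℂ :=
  WN p q Λ (n (wc p x)) x

/-- the map into the ball -/
noncomputable def GG (B : E m →L[ℂ] E m) (p : E m) (q : E m → ℂ) (Λ : E m →L[ℂ] ℂ) (n : ℂ → ℂ)
    (x : E m) : E m := Th B p (ZC p n x) (WC p q Λ n x)

/-- the dilated tangential coordinate -/
noncomputable def ZD (q : E m → ℂ) (n : ℂ → ℂ) (ε : ℝ) (Z : E m) (W : ℂ) : E m :=
  n ((ε : ℂ) ^ 2 * (W + q Z)) • Z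

/-- the dilated normal coordinate -/
noncomputable def WD (q : E m → ℂ) (Λ : E m →L[ℂ] ℂ) (n : ℂ → ℂ) (ε : ℝ) (Z : E m) (W : ℂ) : ℂ :=
  (W + q Z) - n ((ε : ℂ) ^ 2 * (W + q Z)) ^ 2 * q Z +
    Complex.I * n ((ε : ℂ) ^ 2 * (W + q Z)) * ε * (W + q Z) * Λ Z

theorem ZC_PP {p : E m} (hp : ‖p‖ = 1) (q : E m → ℂ) (n : ℂ → ℂ) (ε : ℝ) {Z : E m}
    (hZ : (inner ℂ p Z : ℂ) = 0) (W : ℂ) :
    ZC p n (PP p q ε Z W) = (ε : ℂ) • ZD q n ε Z W := by
  rw [ZC, wc_PP hp q ε hZ, zc_PP hp q ε hZ, ZD, smul_comm]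

theorem WC_PP {p : E m} (hp : ‖p‖ = 1) {q : E m → ℂ} (qh : ∀ (c : ℂ) (z : E m), q (c • z) = c ^ 2 * q z)
    (Λ : E m →L[ℂ] ℂ) (n : ℂ → ℂ) (ε : ℝ) {Z : E m}
    (hZ : (inner ℂ p Z : ℂ) = 0) (W : ℂ) :
    WC p q Λ n (PP p q ε Z W) = (ε : ℂ) ^ 2 * WD q Λ n ε Z W := by
  rw [WC, WN, wc_PP hp q ε hZ, zc_PP hp q ε hZ, WD, qh, map_smul, smul_eq_mul]
  ring

/-- the composition, dilated -/
noncomputable def EG (B B' : E m →L[ℂ] E m) (p : E m) (q : E m → ℂ) (Λ : E m →L[ℂ] ℂ) (n : ℂ → ℂ)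
    (ε : ℝ) (ξ : E m) : E m :=
  Th B p (ZD q n ε (Zi B B' p ξ) (Wi B p ξ)) (WD q Λ n ε (Zi B B' p ξ) (Wi B p ξ))

section

variable {D O : Set (E m)} {p : E m} {B B' : E m →L[ℂ] E m} {q : E m → ℂ} {Λ : E m →L[ℂ] ℂ}
  {a C r : ℝ} (h : LD D p B B' q Λ a C r) {n : ℂ → ℂ}
include h

theorem perp_ZC (x : E m) : (inner ℂ (B p) (B (ZC p n x)) : ℂ) = 0 := by
  rw [ZC, map_smul, inner_smul_right, zc, h.perp _ (inner_perp h.np x), mul_zero]

theorem GG_ball {x : E m} (hF : ‖B (ZC p n x)‖ ^ 2 < (WC p q Λ n x).re) :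
    GG B p q Λ n x ∈ ball (0 : E m) 1 :=
  Th_ball h.nB (perp_ZC h x) hF

theorem diff_ZC (hnd : ∀ w : ℂ, 0 < w.re → DifferentiableAt ℂ n w) {x : E m}
    (hx : x ∈ ball (0 : E m) 1) : DifferentiableAt ℂ (ZC p n) x := by
  have h1 : DifferentiableAt ℂ (fun x => n (wc p x)) x :=
    (hnd _ (re_wc2 h.np hx)).comp x (diff_wc p x)
  unfold ZC
  exact h1.smul (diff_zc p x)

theorem diff_WC (hnd : ∀ w : ℂ, 0 < w.re → DifferentiableAt ℂ n w) {x : E m}
    (hx : x ∈ ball (0 : E m) 1) : DifferentiableAt ℂ (WC p q Λ n) x := by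
  have h1 : DifferentiableAt ℂ (fun x => n (wc p x)) x :=
    (hnd _ (re_wc2 h.np hx)).comp x (diff_wc p x)
  have hq : DifferentiableAt ℂ (fun x => q (zc p x)) x := (h.qd _).comp x (diff_zc p x)
  have hL : DifferentiableAt ℂ (fun x => Λ (zc p x)) x := Λ.differentiableAt.comp x (diff_zc p x)
  unfold WC WN
  exact ((diff_wc p x).sub ((h1.pow 2).mul hq)).add
    (((h1.const_mul Complex.I).mul (diff_wc p x)).mul hL)

theorem GG_diff (hnd : ∀ w : ℂ, 0 < w.re → DifferentiableAt ℂ n w) (hO : O ⊆ ball 0 1)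
    (hF : ∀ x ∈ O, ‖B (ZC p n x)‖ ^ 2 < (WC p q Λ n x).re) :
    DifferentiableOn ℂ (GG B p q Λ n) O := by
  intro x hx
  refine DifferentiableAt.differentiableWithinAt ?_
  have h2 := diff_ZC h hnd (hO hx)
  have h3 := diff_WC h hnd (hO hx)
  have hW : 0 < (WC p q Λ n x).re := lt_of_le_of_lt (sq_nonneg _) (hF x hx)
  have hne := one_add_ne hW
  have h4 : DifferentiableAt ℂ (fun x => (1 - WC p q Λ n x) / (1 + WC p q Λ n x)) x :=
    fdiv (h3.const_sub 1) (h3.const_add 1) hne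
  have h5 : DifferentiableAt ℂ (fun x => (2 : ℂ) / (1 + WC p q Λ n x)) x :=
    fdiv (differentiableAt_const _) (h3.const_add 1) hne
  have h6 : DifferentiableAt ℂ (fun x => B (ZC p n x)) x := B.differentiableAt.comp x h2
  exact (h4.smul_const (B p)).add (h5.smul h6)

theorem siegel_G (hF : ∀ x ∈ D, ‖B (ZC p n x)‖ ^ 2 < (WC p q Λ n x).re) {ε : ℝ} (h0 : 0 < ε)
    {Z : E m} (hZ : (inner ℂ p Z : ℂ) = 0) {W : ℂ}
    (hx : PP p q ε Z W ∈ D) : ‖B (ZD q n ε Z W)‖ ^ 2 < (WD q Λ n ε Z W).re := by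
  have h1 := hF _ hx
  rw [ZC_PP h.np q n ε hZ, WC_PP h.np h.qh Λ n ε hZ, map_smul, norm_smul, Complex.norm_real,
    Real.norm_eq_abs, abs_of_pos h0, mul_pow, ← Complex.ofReal_pow, Complex.re_ofReal_mul] at h1
  exact lt_of_mul_lt_mul_left h1 (sq_nonneg ε)

theorem perp_ZD {ε : ℝ} {Z : E m} (hZ : (inner ℂ p Z : ℂ) = 0) (W : ℂ) :
    (inner ℂ (B p) (B (ZD q n ε Z W)) : ℂ) = 0 := by
  rw [ZD, map_smul, inner_smul_right, h.perp _ hZ, mul_zero]

theorem GG_PP (hF : ∀ x ∈ D, ‖B (ZC p n x)‖ ^ 2 < (WC p q Λ n x).re) {ε : ℝ} (h0 : 0 < ε)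
    (h1 : ε < 1) {Z : E m} (hZ : (inner ℂ p Z : ℂ) = 0) {W : ℂ}
    (hx : PP p q ε Z W ∈ D) : GG B p q Λ n (PP p q ε Z W) =
      mv (B p) (ae ε : ℂ) (Th B p (ZD q n ε Z W) (WD q Λ n ε Z W)) := by
  have h2 := siegel_G h hF h0 hZ hx
  have h3 : 0 < (WD q Λ n ε Z W).re := lt_of_le_of_lt (sq_nonneg _) h2
  rw [Th_mv h.nB (perp_ZD h hZ W) h3 h0 h1, GG, ZC_PP h.np q n ε hZ,
    WC_PP h.np h.qh Λ n ε hZ]

theorem EG_ball (hF : ∀ x ∈ D, ‖B (ZC p n x)‖ ^ 2 < (WC p q Λ n x).re) {ε : ℝ} (h0 : 0 < ε)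
    {ξ : E m} (hx : Pm B B' p q ε ξ ∈ D) :
    EG B B' p q Λ n ε ξ ∈ ball (0 : E m) 1 := by
  have hZ := perp_Zi h.i1 h.i2 h.np h.nB h.perp ξ
  exact Th_ball h.nB (perp_ZD h hZ _) (siegel_G h hF h0 hZ hx)

theorem GG_Pm (hF : ∀ x ∈ D, ‖B (ZC p n x)‖ ^ 2 < (WC p q Λ n x).re) {ε : ℝ} (h0 : 0 < ε)
    (h1 : ε < 1) {ξ : E m} (hx : Pm B B' p q ε ξ ∈ D) :
    GG B p q Λ n (Pm B B' p q ε ξ) = mv (B p) (ae ε : ℂ) (EG B B' p q Λ n ε ξ) :=
  GG_PP h hF h0 h1 (perp_Zi h.i1 h.i2 h.np h.nB h.perp ξ) hx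

end

theorem EG_tendsto {p : E m} {B B' : E m →L[ℂ] E m} {q : E m → ℂ} {Λ : E m →L[ℂ] ℂ}
    (i1 : ∀ x, B' (B x) = x) (i2 : ∀ x, B (B' x) = x)
    (hp : ‖p‖ = 1) (nB : ‖B p‖ = 1) (perp : ∀ z, inner ℂ p z = 0 → inner ℂ (B p) (B z) = 0)
    {n : ℂ → ℂ} (hn1 : ∀ u : ℕ → ℂ, Tendsto u atTop (𝓝 0) → (∀ i, 0 < (u i).re) →
      Tendsto (fun i => n (u i)) atTop (𝓝 1)) {ε : ℕ → ℝ} (hε : Tendsto ε atTop (𝓝 0))
    (hε0 : ∀ i, 0 < ε i) {ξ : E m}
    (hξ : ξ ∈ ball (0 : E m) 1) (hv : 0 < (Wi B p ξ + q (Zi B B' p ξ)).re) :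
    Tendsto (fun i => EG B B' p q Λ n (ε i) ξ) atTop (𝓝 ξ) := by
  set Z := Zi B B' p ξ with hZ
  set W := Wi B p ξ with hW
  have hε' : Tendsto (fun i => ((ε i : ℝ) : ℂ)) atTop (𝓝 0) := by
    have := (Complex.continuous_ofReal.tendsto (0 : ℝ)).comp hε
    rw [Complex.ofReal_zero] at this
    exact this
  have hn : Tendsto (fun i => n ((ε i : ℂ) ^ 2 * (W + q Z))) atTop (𝓝 1) := by
    apply hn1
    · have := (hε'.pow 2).mul_const (W + q Z)
      simpa using this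
    · intro i
      rw [← Complex.ofReal_pow, Complex.re_ofReal_mul]
      have := hε0 i
      positivity
  have hZn : Tendsto (fun i => ZD q n (ε i) Z W) atTop (𝓝 Z) := by
    have := hn.smul_const Z
    simpa [ZD] using this
  have hWn : Tendsto (fun i => WD q Λ n (ε i) Z W) atTop (𝓝 W) := by
    have h1 := ((hn.pow 2).mul_const (q Z)).const_sub (W + q Z)
    have h2 := (((hn.const_mul Complex.I).mul hε').mul_const (W + q Z)).mul_const (Λ Z)
    have h3 := h1.add h2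
    simpa [WD] using h3
  have hWp : 0 < W.re := lt_of_le_of_lt (sq_nonneg _) (siegel_i i1 i2 hp nB perp hξ)
  have hne := one_add_ne hWp
  have h6 : Tendsto (fun i => Th B p (ZD q n (ε i) Z W) (WD q Λ n (ε i) Z W)) atTop
      (𝓝 (Th B p Z W)) := by
    unfold Th
    refine Tendsto.add ?_ ?_
    · exact ((hWn.const_sub 1).div (hWn.const_add 1) hne).smul_const _
    · exact ((tendsto_const_nhds).div (hWn.const_add 1) hne).smul
        ((B.continuous.tendsto Z).comp hZn)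
  rw [Th_i i1 i2 hp nB perp hξ] at h6
  exact h6

/-- Self-similarity data for `D` with the map `Φ` and the functions `e` on the larger domain `O`. -/
theorem ssim3_of_LD {m : ℕ} {D O : Set (E m)} {p : E m} {B B' : E m →L[ℂ] E m}
    {q : E m → ℂ} {Λ : E m →L[ℂ] ℂ} {a C r : ℝ} (h : LD D p B B' q Λ a C r) (hOo : IsOpen O)
    (hO1 : O ⊆ ball 0 1) (hDO : D ⊆ O) {n : ℂ → ℂ}
    (hnd : ∀ w : ℂ, 0 < w.re → DifferentiableAt ℂ n w)
    (hn1 : ∀ u : ℕ → ℂ, Tendsto u atTop (𝓝 0) → (∀ i, 0 < (u i).re) →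
      Tendsto (fun i => n (u i)) atTop (𝓝 1))
    (hF' : ∀ x ∈ O, ‖B (ZC p n x)‖ ^ 2 < (WC p q Λ n x).re) :
    ∃ (Φ : E m → E m) (P : ℕ → E m → E m) (e : Set ℕ → E m → ℂ), SSim D p Φ P e ∧
      DifferentiableOn ℂ Φ O ∧ MapsTo Φ O (ball 0 1) := by
  have hinv : S_inv := t_inv
  have hF : ∀ x ∈ D, ‖B (ZC p n x)‖ ^ 2 < (WC p q Λ n x).re := fun x hx => hF' x (hDO hx)
  have hA : ∀ k, Aut (mv (B p) (ae (es k) : ℂ)) (mv (B p) (-(ae (es k) : ℂ))) := fun k =>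
    aut_mv t_mv h.nB (by
      rw [mem_ball_zero_iff, Complex.norm_real, Real.norm_eq_abs,
        abs_of_pos (ae_pos (es_pos k) (es_lt k))]
      exact ae_lt (es_pos k))
  have hu : DifferentiableOn ℂ (wc p) O := (diff_wc p).differentiableOn
  have hu' : ∀ x ∈ O, 0 < (wc p x).re := fun x hx => re_wc2 h.np (hO1 hx)
  have hmaps : ∀ j, MapsTo (fun x => mv (B p) (-(ae (es j) : ℂ)) (GG B p q Λ n x)) O (ball 0 1) :=
    fun j x hx => (hA j).m2 (GG_ball h (hF' x hx))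
  -- the coordinate of the approximate inverses
  have hP : ∀ ξ ∈ ball (0 : E m) 1, 0 < (Wi B p ξ + q (Zi B B' p ξ)).re ∧
      (∀ k, wc p (Pm B B' p q (es k) ξ) =
      (Real.exp (-sc k) : ℝ) * (Wi B p ξ + q (Zi B B' p ξ))) ∧
        ∀ᶠ k in atTop, Pm B B' p q (es k) ξ ∈ D := by
    intro ξ hξ
    obtain ⟨s, ε₀, hs, hε₀, h1, h2⟩ := Pm_mem h hinv isOpen_univ (mem_univ p) hξ
    have h3 : ∀ᶠ k in atTop, Pm B B' p q (es k) ξ ∈ D := by
      filter_upwards [es_tendsto.eventually_lt_const hε₀] with k hk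
      exact (h2 _ (es_pos k) hk ξ (mem_ball_self hs)).1
    have h4 : ∀ k, wc p (Pm B B' p q (es k) ξ) =
        (Real.exp (-sc k) : ℝ) * (Wi B p ξ + q (Zi B B' p ξ)) := by
      intro k
      rw [Pm, wc_PP h.np q (es k) (perp_Zi h.i1 h.i2 h.np h.nB h.perp ξ), ← es_sq]
      push_cast
      rfl
    refine ⟨?_, h4, h3⟩
    obtain ⟨k, hk⟩ := h3.exists
    have h5 := hu' _ (hDO hk)
    rw [h4, Complex.re_ofReal_mul] at h5
    exact (mul_pos_iff_of_pos_left (Real.exp_pos _)).1 h5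
  set Φ : E m → E m :=
    fun x => ∑' j, bump j (wc p x) • mv (B p) (-(ae (es j) : ℂ)) (GG B p q Λ n x) with hΦ
  set e : Set ℕ → E m → ℂ :=
    fun A x => ∑' j, bump j (wc p x) • A.indicator (fun _ => (1 : ℂ)) j with he
  have dΦ : DifferentiableOn ℂ Φ O := by
    refine diff_tsum_E hOo (wc p) hu hu' _ (fun j => ?_) (fun j x hx => ?_)
    · exact (hA j).d2.comp (GG_diff h hnd hO1 hF') (fun x hx => GG_ball h (hF' x hx))
    · exact (mem_ball_zero_iff.1 (hmaps j hx)).le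
  have mΦ : MapsTo Φ O (ball 0 1) := by
    intro x hx
    rw [mem_ball_zero_iff]
    exact norm_tsum_lt (hu' x hx) (fun j => mem_ball_zero_iff.1 (hmaps j hx))
  have de : ∀ A, DifferentiableOn ℂ (e A) O := by
    intro A
    refine diff_tsum hOo (wc p) hu hu' _ (fun j => differentiableOn_const _) (fun j x hx => ?_)
    by_cases hj : j ∈ A <;> simp [hj]
  have be : ∀ A, ∀ x ∈ O, ‖e A x‖ ≤ 1 := by
    intro A x hx
    refine norm_tsum_le (hu' x hx) (fun j => ?_)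
    by_cases hj : j ∈ A <;> simp [hj]
  refine ⟨Φ, fun k => Pm B B' p q (es k), e, ⟨dΦ.mono hDO, mΦ.mono_left hDO, ?_, ?_,
    fun A => (de A).mono hDO, fun A x hx => be A x (hDO hx), ?_⟩, dΦ, mΦ⟩
  · intro W hW hpW ξ hξ
    obtain ⟨s, ε₀, hs, hε₀, h1, h2⟩ := Pm_mem h hinv hW hpW hξ
    refine ⟨s, hs, h1, ?_⟩
    filter_upwards [es_tendsto.eventually_lt_const hε₀] with k hk
    refine ⟨fun y hy => (diff_Pm h (es k) (h1 hy)).differentiableWithinAt, fun y hy => ?_⟩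
    exact h2 _ (es_pos k) hk y hy
  · intro ξ hξ
    obtain ⟨hvre, hv, hmem⟩ := hP ξ hξ
    have hv0 : Wi B p ξ + q (Zi B B' p ξ) ≠ 0 := by
      intro h0
      rw [h0] at hvre
      simp at hvre
    have hE : Tendsto (fun k => EG B B' p q Λ n (es k) ξ) atTop (𝓝 ξ) :=
      EG_tendsto h.i1 h.i2 h.np h.nB h.perp hn1 es_tendsto es_pos hξ hvre
    have hb : Tendsto (fun k => bump k (wc p (Pm B B' p q (es k) ξ))) atTop (𝓝 1) := by
      simp only [hv]
      exact bump_tendsto hv0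
    have h1 := hb.smul hE
    rw [one_smul] at h1
    have h2 : Tendsto (fun k : ℕ => ((1 : ℝ) / 2) ^ (k + 3)) atTop (𝓝 0) :=
      (tendsto_pow_atTop_nhds_zero_of_lt_one (by norm_num) (by norm_num)).comp
        (tendsto_add_atTop_nat 3)
    have h3 : Tendsto (fun k => (∑' j, bump j (wc p (Pm B B' p q (es k) ξ)) •
        mv (B p) (-(ae (es j) : ℂ)) (GG B p q Λ n (Pm B B' p q (es k) ξ))) -
        bump k (wc p (Pm B B' p q (es k) ξ)) • EG B B' p q Λ n (es k) ξ) atTop (𝓝 0) := by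
      refine squeeze_zero_norm' ?_ h2
      filter_upwards [hmem, closest_center hv0] with k hk hc
      have h4 : mv (B p) (-(ae (es k) : ℂ)) (GG B p q Λ n (Pm B B' p q (es k) ξ)) =
          EG B B' p q Λ n (es k) ξ := by
        rw [GG_Pm h hF (es_pos k) (es_lt k) hk, (hA k).i1 _ (EG_ball h hF (es_pos k) hk)]
      have h5 := tsum_near (hu' _ (hDO hk)) (k := k) (by rw [hv]; exact hc)
        (v := fun j => mv (B p) (-(ae (es j) : ℂ)) (GG B p q Λ n (Pm B B' p q (es k) ξ)))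
        (fun j => (mem_ball_zero_iff.1 (hmaps j (hDO hk))).le)
      simp only [h4] at h5
      exact h5
    have h6 := h3.add h1
    rw [zero_add] at h6
    refine h6.congr fun k => ?_
    abel
  · intro A ξ hξ
    obtain ⟨hvre, hv, hmem⟩ := hP ξ hξ
    have hv0 : Wi B p ξ + q (Zi B B' p ξ) ≠ 0 := by
      intro h0
      rw [h0] at hvre
      simp at hvre
    have hb : Tendsto (fun k => bump k (wc p (Pm B B' p q (es k) ξ))) atTop (𝓝 1) := by
      simp only [hv]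
      exact bump_tendsto hv0
    have h2 : Tendsto (fun k : ℕ => ((1 : ℝ) / 2) ^ (k + 3)) atTop (𝓝 0) :=
      (tendsto_pow_atTop_nhds_zero_of_lt_one (by norm_num) (by norm_num)).comp
        (tendsto_add_atTop_nat 3)
    have h3 : Tendsto (fun k => (∑' j, bump j (wc p (Pm B B' p q (es k) ξ)) •
        A.indicator (fun _ => (1 : ℂ)) j) -
        bump k (wc p (Pm B B' p q (es k) ξ)) • A.indicator (fun _ => (1 : ℂ)) k) atTop (𝓝 0) := by
      refine squeeze_zero_norm' ?_ h2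
      filter_upwards [hmem, closest_center hv0] with k hk hc
      refine tsum_near (hu' _ (hDO hk)) (k := k) (by rw [hv]; exact hc) (fun j => ?_)
      by_cases hj : j ∈ A <;> simp [hj]
    have h4 : Tendsto (fun k => bump k (wc p (Pm B B' p q (es k) ξ)) •
        A.indicator (fun _ => (1 : ℂ)) k - A.indicator (fun _ => (1 : ℂ)) k) atTop (𝓝 0) := by
      have h5 : Tendsto (fun k => ‖bump k (wc p (Pm B B' p q (es k) ξ)) - 1‖) atTop (𝓝 0) := by
        have := (hb.sub_const 1).norm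
        simpa using this
      refine squeeze_zero_norm (fun k => ?_) h5
      have h6 : bump k (wc p (Pm B B' p q (es k) ξ)) • A.indicator (fun _ => (1 : ℂ)) k -
          A.indicator (fun _ => (1 : ℂ)) k =
          (bump k (wc p (Pm B B' p q (es k) ξ)) - 1) * A.indicator (fun _ => (1 : ℂ)) k := by
        rw [smul_eq_mul]; ring
      rw [h6, norm_mul]
      refine mul_le_of_le_one_right (norm_nonneg _) ?_
      by_cases hj : k ∈ A <;> simp [hj]
    have h6 := h3.add h4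
    rw [zero_add] at h6
    refine h6.congr fun k => ?_
    ring

end Pool.Agent.H272.OSP
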