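import Mathlib
import Pool.Agent.H272.OSP.Bas
import Pool.Agent.H272.OSP.Sim2

/-!
The larger domain `O`, with contact of order more than two at `p`.
-/

set_option autoImplicit false

open Metric Set Filter Topology

namespace Pool.Agent.H272.OSP

open Pool.Agent.H303.CB Pool.Agent.H643.CB

variable {m : ℕ} {D : Set (E m)} {p : E m} {B B' : E m →L[ℂ] E m} {q : E m → ℂ}
  {Λ : E m →L[ℂ] ℂ} {a C r : ℝ}

/-- the constant of the Lipschitz estimate -/
noncomputable def cL (C a : ℝ) (B : E m →L[ℂ] E m) (Λ : E m →L[ℂ] ℂ) : ℝ :=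
  6 * ‖B‖ ^ 2 + 88 * (C + 1) + 5 * ‖Λ‖ + 3 * |a|

theorem contact (h : LD D p B B' q Λ a C r) (hne : D.Nonempty)
    (hD2 : ∀ x ∈ D, ‖x - (1 / 2 : ℂ) • p‖ ≤ 1 / 2) {x : E m} {d : ℝ} (hδ0 : 0 < ‖x - p‖)
    (hδ16 : ‖x - p‖ < 1 / 16) (hδr : ‖x - p‖ < r / 2) (hδd : ‖x - p‖ ≤ d) (hd16 : d ≤ 1 / 16)
    (hxD : infDist x D < ‖x - p‖ ^ 2 * d) :
    ‖x - p‖ ^ 2 < 2 * (wc p x).re ∧
    QQ B q Λ a p x < (wc p x).re * (1 + (22 * C + 2 * cL C a B Λ + 2) * d) +
      (22 * C + 2 * cL C a B Λ + 2) * d * (‖zc p x‖ ^ 2 + (wc p x).im ^ 2) := by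
  have hp := h.np
  have hC := h.C0
  obtain ⟨L, hL⟩ : ∃ L : ℝ, L = cL C a B Λ := ⟨_, rfl⟩
  have hL0 : 0 ≤ L := by rw [hL, cL]; positivity
  rw [← hL]
  set δ : ℝ := ‖x - p‖ with hδ
  have hδ0' : 0 ≤ δ := hδ0.le
  have hd0 : 0 < d := lt_of_lt_of_le hδ0 hδd
  obtain ⟨y, hy, hxy⟩ := (infDist_lt_iff hne).1 hxD
  rw [dist_eq_norm] at hxy
  set η : ℝ := ‖x - y‖ with hη
  have hη0 : 0 ≤ η := norm_nonneg _
  have hη2 : η ≤ δ / 16 := by
    have : δ ^ 2 * d ≤ δ / 16 := by nlinarith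
    linarith
  have hη3 : η ≤ δ ^ 2 / 16 := by
    have : δ ^ 2 * d ≤ δ ^ 2 / 16 := by nlinarith [sq_nonneg δ]
    linarith
  have hδy1 : ‖y - p‖ ≤ δ + η := by
    have : y - p = (x - p) - (x - y) := by abel
    rw [this]
    exact norm_sub_le _ _
  have hδy2 : δ ≤ ‖y - p‖ + η := by
    have : x - p = (y - p) + (x - y) := by abel
    rw [hδ, this]
    exact norm_add_le _ _
  have hsy : ‖y - p‖ ^ 2 ≤ (wc p y).re := half_mem hp (hD2 y hy)
  have hwxy : wc p x - wc p y = -(inner ℂ p (x - y) : ℂ) := by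
    rw [wc, wc, inner_sub_right]
    ring
  have hwn : ‖wc p x - wc p y‖ ≤ η := by
    rw [hwxy, norm_neg]
    have := norm_inner_le_norm (𝕜 := ℂ) p (x - y)
    rwa [hp, one_mul] at this
  have hre : |(wc p x).re - (wc p y).re| ≤ η := by
    rw [← Complex.sub_re]
    exact (Complex.abs_re_le_norm _).trans hwn
  have him : |(wc p x).im - (wc p y).im| ≤ η := by
    rw [← Complex.sub_im]
    exact (Complex.abs_im_le_norm _).trans hwn
  have hzxy : ‖zc p x - zc p y‖ ≤ 2 * η := by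
    have e1 : zc p x - zc p y = (x - y) - (inner ℂ p (x - y) : ℂ) • p := by
      rw [zc, zc, inner_sub_right]
      module
    rw [e1]
    refine (norm_sub_le _ _).trans ?_
    rw [norm_smul, hp, mul_one]
    have := norm_inner_le_norm (𝕜 := ℂ) p (x - y)
    rw [hp, one_mul] at this
    linarith
  have hnz : ∀ v : E m, ‖zc p v‖ ≤ ‖v - p‖ ∧ |(wc p v).im| ≤ ‖v - p‖ := by
    intro v
    have e1 := norm_sub_p hp v
    refine ⟨?_, ?_⟩
    · apply le_of_sq_le_sq _ (norm_nonneg _)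
      have := sq_nonneg ‖wc p v‖
      linarith
    · refine (Complex.abs_im_le_norm _).trans ?_
      apply le_of_sq_le_sq _ (norm_nonneg _)
      have := sq_nonneg ‖zc p v‖
      linarith
  have hδy3 : ‖y - p‖ ≤ 2 * δ := by linarith
  have hδy4 : 15 / 16 * δ ≤ ‖y - p‖ := by linarith
  have hsx : δ ^ 2 < 2 * (wc p x).re := by
    have e1 : (15 / 16 * δ) ^ 2 ≤ ‖y - p‖ ^ 2 := pow_le_pow_left₀ (by positivity) hδy4 2
    have e2 := (abs_le.1 hre).1
    nlinarith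
  refine ⟨hsx, ?_⟩
  have hQ : QQ B q Λ a p x ≤ QQ B q Λ a p y + L * δ * η := by
    have z1 : ‖zc p x‖ ≤ δ := (hnz x).1
    have z2 : ‖zc p y‖ ≤ 2 * δ := (hnz y).1.trans hδy3
    have t1 : |(wc p x).im| ≤ δ := (hnz x).2
    have t2 : |(wc p y).im| ≤ 2 * δ := (hnz y).2.trans hδy3
    have b1 : ‖B (zc p x)‖ ^ 2 - ‖B (zc p y)‖ ^ 2 ≤ 6 * ‖B‖ ^ 2 * δ * η := by
      have e1 : ‖B (zc p x)‖ ≤ ‖B (zc p y)‖ + ‖B‖ * (2 * η) := by
        have e2 : B (zc p x) = B (zc p y) + B (zc p x - zc p y) := by rw [map_sub]; abel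
        rw [e2]
        refine (norm_add_le _ _).trans ?_
        gcongr
        exact (B.le_opNorm _).trans (by gcongr)
      have e3 : ‖B (zc p x)‖ ≤ ‖B‖ * δ := (B.le_opNorm _).trans (by gcongr)
      have e4 : ‖B (zc p y)‖ ≤ ‖B‖ * (2 * δ) := (B.le_opNorm _).trans (by gcongr)
      have e5 : ‖B (zc p x)‖ ^ 2 - ‖B (zc p y)‖ ^ 2 =
          (‖B (zc p x)‖ - ‖B (zc p y)‖) * (‖B (zc p x)‖ + ‖B (zc p y)‖) := by ring
      rw [e5]
      have e6 : ‖B (zc p x)‖ - ‖B (zc p y)‖ ≤ ‖B‖ * (2 * η) := by linarith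
      have e7 : ‖B (zc p x)‖ + ‖B (zc p y)‖ ≤ ‖B‖ * (3 * δ) := by linarith
      calc (‖B (zc p x)‖ - ‖B (zc p y)‖) * (‖B (zc p x)‖ + ‖B (zc p y)‖)
          ≤ ‖B‖ * (2 * η) * (‖B (zc p x)‖ + ‖B (zc p y)‖) := by gcongr
        _ ≤ ‖B‖ * (2 * η) * (‖B‖ * (3 * δ)) := by gcongr
        _ = _ := by ring
    have b2 : (q (zc p x)).re - (q (zc p y)).re ≤ 88 * (C + 1) * δ * η := by
      have e1 := q_lip h.qd hC h.qb (z := zc p x) (z' := zc p y) (ρ := 2 * δ) z2 (by linarith)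
      have e2 : (q (zc p x)).re - (q (zc p y)).re ≤ ‖q (zc p x) - q (zc p y)‖ := by
        rw [← Complex.sub_re]
        exact Complex.re_le_norm _
      have e3 : 11 * (C + 1) * (2 * δ) * ‖zc p x - zc p y‖ ≤
          11 * (C + 1) * (2 * δ) * (2 * η) := by gcongr
      have e4 : 0 ≤ (C + 1) * δ * η := by positivity
      linarith
    have b3 : (wc p x).im * (Λ (zc p x)).re - (wc p y).im * (Λ (zc p y)).re ≤
        5 * ‖Λ‖ * δ * η := by
      have e1 : (wc p x).im * (Λ (zc p x)).re - (wc p y).im * (Λ (zc p y)).re =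
          ((wc p x).im - (wc p y).im) * (Λ (zc p x)).re +
            (wc p y).im * (Λ (zc p x - zc p y)).re := by
        rw [map_sub, Complex.sub_re]; ring
      rw [e1]
      have e2 : |(Λ (zc p x)).re| ≤ ‖Λ‖ * δ :=
        (Complex.abs_re_le_norm _).trans ((Λ.le_opNorm _).trans (by gcongr))
      have e3 : |(Λ (zc p x - zc p y)).re| ≤ ‖Λ‖ * (2 * η) :=
        (Complex.abs_re_le_norm _).trans ((Λ.le_opNorm _).trans (by gcongr))
      have e4 : ((wc p x).im - (wc p y).im) * (Λ (zc p x)).re ≤ η * (‖Λ‖ * δ) := by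
        refine (le_abs_self _).trans ?_
        rw [abs_mul]
        gcongr
      have e5 : (wc p y).im * (Λ (zc p x - zc p y)).re ≤ (2 * δ) * (‖Λ‖ * (2 * η)) := by
        refine (le_abs_self _).trans ?_
        rw [abs_mul]
        gcongr
      linarith
    have b4 : a * (wc p x).im ^ 2 - a * (wc p y).im ^ 2 ≤ 3 * |a| * δ * η := by
      have e1 : a * (wc p x).im ^ 2 - a * (wc p y).im ^ 2 =
          a * (((wc p x).im - (wc p y).im) * ((wc p x).im + (wc p y).im)) := by ring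
      rw [e1]
      refine (le_abs_self _).trans ?_
      rw [abs_mul, abs_mul]
      have e2 : |(wc p x).im + (wc p y).im| ≤ 3 * δ := (abs_add_le _ _).trans (by linarith)
      calc |a| * (|(wc p x).im - (wc p y).im| * |(wc p x).im + (wc p y).im|)
          ≤ |a| * (η * (3 * δ)) := by gcongr
        _ = _ := by ring
    unfold QQ
    rw [hL, cL]
    linarith
  refine real_fin hδ0 hC hL0 hδd (by linarith) hη0 hxy.le hsx.le hδy3 (norm_nonneg _) hQ
    (h.outer y hy (by linarith)) (by linarith [(abs_le.1 hre).1]) ?_ (by positivity)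
  have e1 : ‖zc p y‖ ^ 2 + (wc p y).im ^ 2 ≤ ‖y - p‖ ^ 2 := by
    have e2 := norm_sub_p hp y
    have e3 : (wc p y).im ^ 2 ≤ ‖wc p y‖ ^ 2 := by
      rw [← sq_abs]
      exact pow_le_pow_left₀ (abs_nonneg _) (Complex.abs_im_le_norm _) 2
    linarith
  have e4 : ‖y - p‖ ^ 2 ≤ (2 * δ) ^ 2 := pow_le_pow_left₀ (norm_nonneg _) hδy3 2
  linarith

theorem open_O (h : LD D p B B' q Λ a C r) {n : ℂ → ℂ}
    (hnd : ∀ w : ℂ, 0 < w.re → DifferentiableAt ℂ n w) :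
    IsOpen {x : E m | x ∈ ball (0 : E m) 1 ∧ ‖B (ZC p n x)‖ ^ 2 < (WC p q Λ n x).re} := by
  have h1 : ContinuousOn (fun x => ((‖B (ZC p n x)‖ ^ 2 : ℝ), (WC p q Λ n x).re))
      (ball (0 : E m) 1) := by
    intro x hx
    have h2 : ContinuousAt (fun x => B (ZC p n x)) x :=
      (B.continuous.continuousAt).comp (diff_ZC h hnd hx).continuousAt
    have h3 : ContinuousAt (fun x => (WC p q Λ n x).re) x :=
      (Complex.continuous_re.continuousAt).comp (diff_WC h hnd hx).continuousAt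
    exact ((h2.norm.pow 2).prodMk h3).continuousWithinAt
  exact h1.isOpen_inter_preimage isOpen_ball (isOpen_lt continuous_fst continuous_snd)

theorem enlarge2 (h : LD D p B B' q Λ a C r) (hne : D.Nonempty)
    (hD2 : ∀ x ∈ D, ‖x - (1 / 2 : ℂ) • p‖ ≤ 1 / 2) {κ : ℝ → ℝ}
    (hκ : Tendsto (fun t => κ t / t ^ 2) (𝓝[>] 0) (𝓝 0)) :
    ∃ (O : Set (E m)) (n : ℂ → ℂ), IsOpen O ∧ O ⊆ ball 0 1 ∧ D ⊆ O ∧ closure D \ {p} ⊆ O ∧
      (∃ r₃ > 0, ∀ x, x ≠ p → ‖x - p‖ < r₃ → infDist x D < κ ‖x - p‖ → x ∈ O) ∧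
      (∀ w : ℂ, 0 < w.re → DifferentiableAt ℂ n w) ∧
      (∀ u : ℕ → ℂ, Tendsto u atTop (𝓝 0) → (∀ i, 0 < (u i).re) →
        Tendsto (fun i => n (u i)) atTop (𝓝 1)) ∧
      ∀ x ∈ O, ‖B (ZC p n x)‖ ^ 2 < (WC p q Λ n x).re := by
  have hp := h.np
  have hC := h.C0
  obtain ⟨L, hL⟩ : ∃ L : ℝ, L = cL C a B Λ := ⟨_, rfl⟩
  have hL0 : 0 ≤ L := by rw [hL, cL]; positivity
  obtain ⟨C', hC'⟩ : ∃ C' : ℝ, C' = 22 * C + 2 * L + 2 := ⟨_, rfl⟩
  have hCC : C + 1 ≤ C' := by rw [hC']; linarith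
  have hC'0 : 0 ≤ C' := by linarith
  have hc1 : 1 ≤ c1 C' Λ := by rw [c1]; have := norm_nonneg Λ; linarith
  have hc7 : 1 ≤ c7 C' a B Λ := by
    rw [c7]
    have : 0 ≤ (c1 C' Λ + C') * (‖B‖ ^ 2 + C' + ‖Λ‖ + |a|) := by positivity
    linarith
  have hc8 : 0 < c8 C' B Λ := by rw [c8]; positivity
  obtain ⟨β, hβ⟩ : ∃ β : ℝ, β = 1 / (16 * c1 C' Λ) := ⟨_, rfl⟩
  have hβ0 : 0 < β := by rw [hβ]; positivity
  have hβ4 : β ≤ 1 / 4 := by
    rw [hβ]
    apply one_div_le_one_div_of_le (by norm_num)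
    linarith
  have hβC : 4 * β * c1 C' Λ ≤ 1 / 4 := by
    rw [hβ]
    apply le_of_eq
    field_simp
    norm_num
  obtain ⟨e, he⟩ : ∃ e : ℝ → ℝ, ∀ t, e t = t + |κ t / t ^ 2| := ⟨_, fun _ => rfl⟩
  have het : Tendsto e (𝓝[>] 0) (𝓝 0) := by
    have h1 : e = fun t => t + |κ t / t ^ 2| := funext he
    rw [h1]
    have h2 : Tendsto (fun t : ℝ => t) (𝓝[>] 0) (𝓝 0) := tendsto_id.mono_left nhdsWithin_le_nhds
    have h3 := h2.add hκ.abs
    simpa using h3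
  obtain ⟨r1, n, hr10, hr1r, n1, n2, n3, n4, n5⟩ := exists_peak het hβ0 hβ4 hc7 hc8
    (show 0 < r / 2 by linarith [h.r0])
  -- membership
  have far : ∀ x ∈ ball (0 : E m) 1, r1 ≤ ‖x - p‖ → ‖B (ZC p n x)‖ ^ 2 < (WC p q Λ n x).re := by
    intro x hx hxr
    have hx1 := mem_ball_zero_iff.1 hx
    have hw := re_wc2 hp hx
    have hs : ‖x - p‖ ^ 2 < 2 * (wc p x).re := by
      have h1 := norm_x hp x
      have h2 := norm_sub_p hp x
      nlinarith [norm_nonneg x]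
    obtain ⟨m1, m2, m3⟩ := n3 _ hw
    refine core h (by linarith) hβ0 hβC hx1 m1 m2 m3 (Or.inr ⟨r1, hr10, hxr, n5 _ hw ?_⟩)
    have h3 : r1 ^ 2 ≤ ‖x - p‖ ^ 2 := pow_le_pow_left₀ hr10.le hxr 2
    have h4 := Complex.re_le_norm (wc p x)
    linarith
  have near : ∀ x ∈ ball (0 : E m) 1, ‖x - p‖ < r1 →
      QQ B q Λ a p x < (wc p x).re * (1 + C' * e ‖x - p‖) +
        C' * e ‖x - p‖ * (‖zc p x‖ ^ 2 + (wc p x).im ^ 2) →
      ‖B (ZC p n x)‖ ^ 2 < (WC p q Λ n x).re := by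
    intro x hx hxr hxQ
    have hx1 := mem_ball_zero_iff.1 hx
    have hw := re_wc2 hp hx
    have hs : ‖x - p‖ ^ 2 < 2 * (wc p x).re := by
      have h1 := norm_x hp x
      have h2 := norm_sub_p hp x
      nlinarith [norm_nonneg x]
    have hxp : 0 < ‖x - p‖ := by
      rw [norm_pos_iff, sub_ne_zero]
      rintro rfl
      rw [hp] at hx1
      exact lt_irrefl _ hx1
    obtain ⟨m1, m2, m3⟩ := n3 _ hw
    obtain ⟨k1, k2⟩ := n4 (wc p x) ‖x - p‖ hw hxp hxr (by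
      have := Complex.re_le_norm (wc p x)
      linarith)
    refine core h (by linarith) hβ0 hβC hx1 m1 m2 m3 (Or.inl ⟨e ‖x - p‖, ?_, k1, k2, hxQ⟩)
    rw [he]
    have := abs_nonneg (κ ‖x - p‖ / ‖x - p‖ ^ 2)
    linarith
  have hcl : closure D \ {p} ⊆
      {x : E m | x ∈ ball (0 : E m) 1 ∧ ‖B (ZC p n x)‖ ^ 2 < (WC p q Λ n x).re} := by
    have cw := cont_wc p
    have cz := cont_zc p
    have cQ := cont_QQ B h.qd Λ a p
    have cs : Continuous fun x => (wc p x).re := Complex.continuous_re.comp cw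
    have ct : Continuous fun x => (wc p x).im := Complex.continuous_im.comp cw
    have cn : Continuous fun x : E m => ‖x - p‖ := (continuous_id.sub continuous_const).norm
    have cR : Continuous fun x => ‖zc p x‖ ^ 2 + (wc p x).im ^ 2 := (cz.norm.pow 2).add (ct.pow 2)
    rintro x ⟨hx, hxp⟩
    have hxp' : 0 < ‖x - p‖ := norm_pos_iff.2 (sub_ne_zero.2 hxp)
    have h1 : ‖x - (1 / 2 : ℂ) • p‖ ≤ 1 / 2 := by
      have : closure D ⊆ {x : E m | ‖x - (1 / 2 : ℂ) • p‖ ≤ 1 / 2} :=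
        closure_minimal hD2 (isClosed_le (continuous_id.sub continuous_const).norm
          continuous_const)
      exact this hx
    have h2 := half_mem hp h1
    have hs : 0 < (wc p x).re := lt_of_lt_of_le (by positivity) h2
    have hb : x ∈ ball (0 : E m) 1 := mem_ball_of hp (by linarith)
    refine ⟨hb, ?_⟩
    rcases le_or_gt r1 ‖x - p‖ with hr | hr
    · exact far x hb hr
    refine near x hb hr ?_
    have h3 : closure D ⊆ {x : E m | r ≤ ‖x - p‖} ∪ {x | QQ B q Λ a p x ≤ (wc p x).re *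
        (1 + C * ‖x - p‖) + C * ‖x - p‖ * (‖zc p x‖ ^ 2 + (wc p x).im ^ 2)} := by
      refine closure_minimal (fun y hy => ?_) ?_
      · rcases le_or_gt r ‖y - p‖ with h4 | h4
        · exact Or.inl h4
        · exact Or.inr (h.outer y hy h4).le
      · refine (isClosed_le continuous_const cn).union (isClosed_le cQ ?_)
        exact (cs.mul (continuous_const.add (continuous_const.mul cn))).add
          ((continuous_const.mul cn).mul cR)
    rcases h3 hx with h4 | h4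
    · have : r ≤ ‖x - p‖ := h4
      linarith [h.r0]
    · have h5 : QQ B q Λ a p x ≤ (wc p x).re *
        (1 + C * ‖x - p‖) + C * ‖x - p‖ * (‖zc p x‖ ^ 2 + (wc p x).im ^ 2) := h4
      refine lt_of_le_of_lt h5 ?_
      have h6 : ‖x - p‖ ≤ e ‖x - p‖ := by
        rw [he]
        have := abs_nonneg (κ ‖x - p‖ / ‖x - p‖ ^ 2)
        linarith
      have hR : 0 ≤ ‖zc p x‖ ^ 2 + (wc p x).im ^ 2 := by positivity
      have h7 : C * ‖x - p‖ < C' * e ‖x - p‖ := by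
        have e1 : C * ‖x - p‖ ≤ C * e ‖x - p‖ := mul_le_mul_of_nonneg_left h6 hC
        have e2 : 0 < e ‖x - p‖ := lt_of_lt_of_le hxp' h6
        have e3 : C * e ‖x - p‖ < C' * e ‖x - p‖ :=
          mul_lt_mul_of_pos_right (by linarith) e2
        linarith
      have h8 : (wc p x).re * (1 + C * ‖x - p‖) < (wc p x).re * (1 + C' * e ‖x - p‖) :=
        mul_lt_mul_of_pos_left (by linarith) hs
      have h9 : C * ‖x - p‖ * (‖zc p x‖ ^ 2 + (wc p x).im ^ 2) ≤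
          C' * e ‖x - p‖ * (‖zc p x‖ ^ 2 + (wc p x).im ^ 2) :=
        mul_le_mul_of_nonneg_right h7.le hR
      linarith
  refine ⟨{x | x ∈ ball (0 : E m) 1 ∧ ‖B (ZC p n x)‖ ^ 2 < (WC p q Λ n x).re}, n, open_O h n1,
    fun x hx => hx.1, ?_, hcl, ?_, n1, n2, fun x hx => hx.2⟩
  · intro x hx
    refine hcl ⟨subset_closure hx, fun h0 => ?_⟩
    rw [mem_singleton_iff] at h0
    have := h.sub hx
    rw [h0, mem_ball_zero_iff, hp] at this
    exact lt_irrefl _ this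
  · have h1 := het.eventually_lt_const (show (0 : ℝ) < 1 / 16 by norm_num)
    rw [eventually_nhdsWithin_iff, Metric.eventually_nhds_iff] at h1
    obtain ⟨r2, hr2, h2⟩ := h1
    refine ⟨min r1 (min r2 (1 / 16)), lt_min hr10 (lt_min hr2 (by norm_num)),
      fun x hxp hxr hxD => ?_⟩
    have hxr1 : ‖x - p‖ < r1 := hxr.trans_le (min_le_left _ _)
    have hxr2 : ‖x - p‖ < r2 := hxr.trans_le ((min_le_right _ _).trans (min_le_left _ _))
    have hx16 : ‖x - p‖ < 1 / 16 := hxr.trans_le ((min_le_right _ _).trans (min_le_right _ _))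
    have hxp' : 0 < ‖x - p‖ := norm_pos_iff.2 (sub_ne_zero.2 hxp)
    have h3 : e ‖x - p‖ < 1 / 16 := by
      refine h2 ?_ hxp'
      rwa [dist_zero_right, Real.norm_eq_abs, abs_of_pos hxp']
    have h4 : ‖x - p‖ ≤ e ‖x - p‖ := by
      rw [he]
      have := abs_nonneg (κ ‖x - p‖ / ‖x - p‖ ^ 2)
      linarith
    have h5 : κ ‖x - p‖ ≤ ‖x - p‖ ^ 2 * e ‖x - p‖ := by
      have e0 : (‖x - p‖ ^ 2) ≠ 0 := by positivity
      have e1 : κ ‖x - p‖ = ‖x - p‖ ^ 2 * (κ ‖x - p‖ / ‖x - p‖ ^ 2) := by field_simp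
      rw [e1]
      have e2 : κ ‖x - p‖ / ‖x - p‖ ^ 2 ≤ e ‖x - p‖ := by
        rw [he]
        have := le_abs_self (κ ‖x - p‖ / ‖x - p‖ ^ 2)
        linarith
      have e3 : 0 ≤ ‖x - p‖ ^ 2 := by positivity
      nlinarith
    obtain ⟨k1, k2⟩ := contact h hne hD2 hxp' hx16 (by linarith) h4 h3.le (hxD.trans_le h5)
    have hb : x ∈ ball (0 : E m) 1 := mem_ball_of hp k1
    refine ⟨hb, near x hb hxr1 ?_⟩
    rw [hC', hL]
    exact k2

end Pool.Agent.H272.OSP
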