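import Mathlib
import Pool.Agent.H303.CB.Fin
import Pool.Agent.H272.SS.Exp

/-!
Lower dimensions; the local data in the unit coordinates.
-/

set_option autoImplicit false

open Metric Set Filter Topology
open scoped ContDiff

namespace Pool.Agent.H272.OSP

open Pool.Agent.H303.CB (E SmoothAt farthest exists_LD t_taylor LD)
open Pool.Agent.H272.SS

/-- lower dimensions -/
theorem low2 {m n k : ℕ} (hk : k ≤ n) {D O : Set (E m)} {p : E m} {Φ : E m → E n}
    {P : ℕ → E n → E m} {e : Set ℕ → E m → ℂ} (h : SSim D p Φ P e)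
    (hO : DifferentiableOn ℂ Φ O) (hO' : MapsTo Φ O (ball 0 1)) :
    ∃ (Φ' : E m → E k) (P' : ℕ → E k → E m), SSim D p Φ' P' e ∧ DifferentiableOn ℂ Φ' O ∧
      MapsTo Φ' O (ball 0 1) := by
  obtain ⟨d, rfl⟩ := Nat.exists_eq_add_of_le hk
  have d1 : Differentiable ℂ (fun x => pro k d x) :=
    (LinearMap.toContinuousLinearMap (pro k d)).differentiable
  have d2 : Differentiable ℂ (fun y => iot k d y) :=
    (LinearMap.toContinuousLinearMap (iot k d)).differentiable
  have m1 : MapsTo (fun x => pro k d x) (ball (0 : E (k + d)) 1) (ball (0 : E k) 1) := by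
    intro x hx
    rw [mem_ball_zero_iff] at hx ⊢
    exact (norm_pro x).trans_lt hx
  have m2 : MapsTo (fun y => iot k d y) (ball (0 : E k) 1) (ball (0 : E (k + d)) 1) := by
    intro y hy
    rw [mem_ball_zero_iff] at hy ⊢
    rwa [norm_iot]
  refine ⟨fun x => pro k d (Φ x), fun j y => P j (iot k d y),
    ⟨(d1.differentiableOn (s := univ)).comp h.dΦ (mapsTo_univ _ _), fun x hx => m1 (h.mΦ hx),
    ?_, ?_, h.de, h.be, fun A ξ hξ => h.eP A _ (m2 hξ)⟩,
    (d1.differentiableOn (s := univ)).comp hO (mapsTo_univ _ _), fun x hx => m1 (hO' hx)⟩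
  · intro W hW hpW ξ hξ
    obtain ⟨s, hs, hsub, hk⟩ := h.mP W hW hpW _ (m2 hξ)
    have m3 : MapsTo (fun y => iot k d y) (ball ξ s) (ball (iot k d ξ) s) := by
      intro y hy
      rw [mem_ball, dist_eq_norm] at hy ⊢
      rwa [← map_sub, norm_iot]
    refine ⟨s, hs, ?_, ?_⟩
    · intro y hy
      have := hsub (m3 hy)
      rw [mem_ball_zero_iff] at this ⊢
      rwa [norm_iot] at this
    · filter_upwards [hk] with j hj
      exact ⟨hj.1.comp d2.differentiableOn m3, fun y hy => hj.2 _ (m3 hy)⟩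
  · intro ξ hξ
    have h1 := ((d1.continuous.tendsto (iot k d ξ))).comp (h.ΦP _ (m2 hξ))
    rw [pro_iot] at h1
    exact h1

/-- The local data in the unit coordinates. -/
theorem ld_ball {m : ℕ} {D : Set (E m)} {p c : E m} {R : ℝ} (hR : 0 < R) (hD : IsOpen D)
    (hD1 : D ⊆ ball c R) (hp : ‖p - c‖ = R) (hpD : p ∈ closure D) (hs : SmoothAt D p) :
    ∃ (B B' : E m →L[ℂ] E m) (q : E m → ℂ) (Λ : E m →L[ℂ] ℂ) (a C r : ℝ),
      LD {y : E m | c + (R : ℂ) • y ∈ D} ((R : ℂ)⁻¹ • (p - c)) B B' q Λ a C r := by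
  have hR' : (R : ℂ) ≠ 0 := by exact_mod_cast hR.ne'
  have hS : ∀ x : E m, c + (R : ℂ) • ((R : ℂ)⁻¹ • (x - c)) = x := by
    intro x
    rw [smul_smul, mul_inv_cancel₀ hR', one_smul]; abel
  have hT : ∀ y : E m, (R : ℂ)⁻¹ • (c + (R : ℂ) • y - c) = y := by
    intro y
    rw [add_sub_cancel_left, smul_smul, inv_mul_cancel₀ hR', one_smul]
  have hTc : Continuous (fun y : E m => c + (R : ℂ) • y) := by fun_prop
  have hSc : Continuous (fun x : E m => (R : ℂ)⁻¹ • (x - c)) := by fun_prop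
  have h1 : {y : E m | c + (R : ℂ) • y ∈ D} ⊆ ball 0 1 := by
    intro y hy
    have h1 := hD1 hy
    rw [mem_ball, dist_eq_norm, add_sub_cancel_left, norm_smul, Complex.norm_real,
      Real.norm_eq_abs, abs_of_pos hR] at h1
    rw [mem_ball_zero_iff]
    nlinarith
  have h2 : ‖(R : ℂ)⁻¹ • (p - c)‖ = 1 := by
    rw [norm_smul, norm_inv, Complex.norm_real, Real.norm_eq_abs, abs_of_pos hR, hp,
      inv_mul_cancel₀ hR.ne']
  have h3 : (R : ℂ)⁻¹ • (p - c) ∈ closure {y : E m | c + (R : ℂ) • y ∈ D} := by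
    have h1 : (fun x : E m => (R : ℂ)⁻¹ • (x - c)) p ∈
        closure ((fun x : E m => (R : ℂ)⁻¹ • (x - c)) '' D) :=
      image_closure_subset_closure_image hSc ⟨p, hpD, rfl⟩
    refine closure_mono ?_ h1
    rintro _ ⟨x, hx, rfl⟩
    change c + (R : ℂ) • ((R : ℂ)⁻¹ • (x - c)) ∈ D
    rwa [hS]
  have h4 : SmoothAt {y : E m | c + (R : ℂ) • y ∈ D} ((R : ℂ)⁻¹ • (p - c)) := by
    obtain ⟨U, ρ, hU, hpU, hρ, hUD, hne⟩ := hs
    have e1 : (fun y : E m => c + (R : ℂ) • y) = fun y : E m => c + R • y := by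
      funext y; rw [Complex.coe_smul]
    have hTr : ContDiff ℝ 3 (fun y : E m => c + (R : ℂ) • y) := by
      rw [e1]; exact contDiff_const.add (contDiff_id.const_smul R)
    refine ⟨{y : E m | c + (R : ℂ) • y ∈ U}, fun y => ρ (c + (R : ℂ) • y), hU.preimage hTc, ?_,
      hρ.comp hTr.contDiffOn (fun y hy => hy), fun y hy => hUD _ hy, ?_⟩
    · change c + (R : ℂ) • ((R : ℂ)⁻¹ • (p - c)) ∈ U
      rwa [hS]
    · intro h0
      apply hne
      have hρp : DifferentiableAt ℝ ρ (c + (R : ℂ) • ((R : ℂ)⁻¹ • (p - c))) := by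
        rw [hS]
        exact (hρ.contDiffAt (hU.mem_nhds hpU)).differentiableAt (by norm_num)
      have hd : HasFDerivAt (fun y : E m => c + (R : ℂ) • y) (R • ContinuousLinearMap.id ℝ (E m))
          ((R : ℂ)⁻¹ • (p - c)) := by
        rw [e1]
        exact ((hasFDerivAt_id _).const_smul R).const_add c
      have h2 : HasFDerivAt (fun y : E m => ρ (c + (R : ℂ) • y))
        ((fderiv ℝ ρ (c + (R : ℂ) • ((R : ℂ)⁻¹ • (p - c)))).comp
          (R • ContinuousLinearMap.id ℝ (E m))) ((R : ℂ)⁻¹ • (p - c)) :=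
        HasFDerivAt.comp (g := ρ) (f := fun y : E m => c + (R : ℂ) • y) _ hρp.hasFDerivAt hd
      have h3 := h2.fderiv
      rw [h0, hS] at h3
      ext v
      have h4 := congrArg (fun L : E m →L[ℝ] ℝ => L (R⁻¹ • v)) h3
      simp only [ContinuousLinearMap.comp_apply, ContinuousLinearMap.smul_apply,
        ContinuousLinearMap.zero_apply, ContinuousLinearMap.id_apply, smul_smul,
        mul_inv_cancel₀ hR.ne', one_smul] at h4
      exact h4.symm
  obtain ⟨U, ρ, hU, hpU, hρ, hUD, hne⟩ := h4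
  exact exists_LD t_taylor Pool.Agent.H253.CB.t_dec
    (hD.preimage hTc) h1 h2 h3 hU hpU hρ hUD hne

end Pool.Agent.H272.OSP
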