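import Mathlib
import Pool.Agent.H272.OSP.Low
import Pool.Agent.H272.OSP.Enl2
import Pool.Agent.H272.OSP.Defs

/-!
Self-similarity data at exposed points with maps which are holomorphic on larger domains, with contact
of order more than two.
-/

set_option autoImplicit false

open Metric Set Filter Topology
open scoped ContDiff

namespace Pool.Agent.H272.OSP

open Pool.Agent.H303.CB (E SmoothAt farthest exists_LD t_taylor LD)
open Pool.Agent.H272.SS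

/-- Self-similarity data with maps on a larger domain. -/
theorem big_ball2 {m : ℕ} {D : Set (E m)} {p c : E m} {R : ℝ} (hR : 0 < R) (hD : IsOpen D)
    (hne : D.Nonempty) (hD1 : D ⊆ ball c R) (hp : ‖p - c‖ = R) (hpD : p ∈ closure D)
    (hs : SmoothAt D p) {κ : ℝ → ℝ} (hκ : Tendsto (fun t => κ t / t ^ 2) (𝓝[>] 0) (𝓝 0)) :
    ∃ (O : Set (E m)) (Φ : E m → E m) (P : ℕ → E m → E m) (e : Set ℕ → E m → ℂ),
      Surrounds D O p κ ∧ SSim D p Φ P e ∧ DifferentiableOn ℂ Φ O ∧ MapsTo Φ O (ball 0 1) := by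
  obtain ⟨c₂, hc₂⟩ : ∃ c₂ : E m, c₂ = c - (p - c) := ⟨_, rfl⟩
  obtain ⟨R₂, hR₂⟩ : ∃ R₂ : ℝ, R₂ = 2 * R := ⟨_, rfl⟩
  have hR20 : 0 < R₂ := by rw [hR₂]; linarith
  have hpc : p - c₂ = (2 : ℝ) • (p - c) := by rw [hc₂, two_smul]; abel
  have hp2 : ‖p - c₂‖ = R₂ := by
    rw [hpc, norm_smul, hp, hR₂]
    norm_num
  have hD2 : D ⊆ ball c₂ R₂ := by
    intro x hx
    have h1 := hD1 hx
    rw [mem_ball, dist_eq_norm] at h1 ⊢
    have h2 : x - c₂ = (x - c) + (p - c) := by rw [hc₂]; abel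
    rw [h2, hR₂]
    refine (norm_add_le _ _).trans_lt ?_
    rw [hp]
    linarith
  obtain ⟨B, B', q, Λ, a, C, r, h⟩ := ld_ball hR20 hD hD2 hp2 hpD hs
  have hR' : (R₂ : ℂ) ≠ 0 := by exact_mod_cast hR20.ne'
  have hS : ∀ x : E m, c₂ + (R₂ : ℂ) • ((R₂ : ℂ)⁻¹ • (x - c₂)) = x := by
    intro x
    rw [smul_smul, mul_inv_cancel₀ hR', one_smul]; abel
  have hT : ∀ y : E m, (R₂ : ℂ)⁻¹ • (c₂ + (R₂ : ℂ) • y - c₂) = y := by
    intro y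
    rw [add_sub_cancel_left, smul_smul, inv_mul_cancel₀ hR', one_smul]
  have hTc : Continuous (fun y : E m => c₂ + (R₂ : ℂ) • y) := by fun_prop
  have hSc : Continuous (fun x : E m => (R₂ : ℂ)⁻¹ • (x - c₂)) := by fun_prop
  have hSd : Differentiable ℂ (fun x : E m => (R₂ : ℂ)⁻¹ • (x - c₂)) := by fun_prop
  have hdist : ∀ x y : E m, ‖(R₂ : ℂ)⁻¹ • (x - c₂) - (R₂ : ℂ)⁻¹ • (y - c₂)‖ = R₂⁻¹ * ‖x - y‖ := by
    intro x y
    have : (R₂ : ℂ)⁻¹ • (x - c₂) - (R₂ : ℂ)⁻¹ • (y - c₂) = (R₂ : ℂ)⁻¹ • (x - y) := by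
      rw [← smul_sub]
      congr 1
      abel
    rw [this, norm_smul, norm_inv, Complex.norm_real, Real.norm_eq_abs, abs_of_pos hR20]
  have hne' : {y : E m | c₂ + (R₂ : ℂ) • y ∈ D}.Nonempty := by
    obtain ⟨x, hx⟩ := hne
    exact ⟨(R₂ : ℂ)⁻¹ • (x - c₂), by change c₂ + (R₂ : ℂ) • ((R₂ : ℂ)⁻¹ • (x - c₂)) ∈ D; rwa [hS]⟩
  have hhalf : ∀ y ∈ {y : E m | c₂ + (R₂ : ℂ) • y ∈ D},
      ‖y - (1 / 2 : ℂ) • ((R₂ : ℂ)⁻¹ • (p - c₂))‖ ≤ 1 / 2 := by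
    intro y hy
    have h1 := hD1 hy
    rw [mem_ball, dist_eq_norm] at h1
    have h2 : y - (1 / 2 : ℂ) • ((R₂ : ℂ)⁻¹ • (p - c₂)) =
        (R₂ : ℂ)⁻¹ • (c₂ + (R₂ : ℂ) • y - c) := by
      have h3 : c₂ + (R₂ : ℂ) • y - c = (R₂ : ℂ) • y - (p - c) := by rw [hc₂]; abel
      have h4 : (2 : ℝ) • (p - c) = (2 : ℂ) • (p - c) := by
        rw [← Complex.coe_smul]
        norm_num
      rw [h3, hpc, h4, smul_sub ((R₂ : ℂ)⁻¹) ((R₂ : ℂ) • y) (p - c),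
        smul_smul (R₂ : ℂ)⁻¹ (R₂ : ℂ) y, inv_mul_cancel₀ hR', one_smul, smul_smul, smul_smul]
      congr 2
      ring
    rw [h2, norm_smul, norm_inv, Complex.norm_real, Real.norm_eq_abs, abs_of_pos hR20]
    rw [inv_mul_le_iff₀ hR20]
    linarith
  have hκ' : Tendsto (fun t => κ (R₂ * t) / R₂ / t ^ 2) (𝓝[>] 0) (𝓝 0) := by
    have h1 : Tendsto (fun t : ℝ => R₂ * t) (𝓝[>] 0) (𝓝[>] 0) := by
      refine tendsto_nhdsWithin_iff.2 ⟨?_, ?_⟩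
      · have h2 : Tendsto (fun t : ℝ => R₂ * t) (𝓝 0) (𝓝 (R₂ * 0)) :=
          (continuous_const.mul continuous_id).tendsto 0
        rw [mul_zero] at h2
        exact h2.mono_left nhdsWithin_le_nhds
      · filter_upwards [self_mem_nhdsWithin] with t ht
        exact mul_pos hR20 ht
    have h2 := (hκ.comp h1).const_mul R₂
    rw [mul_zero] at h2
    refine h2.congr' ?_
    filter_upwards [self_mem_nhdsWithin] with t ht
    have ht' : t ≠ 0 := (show (0 : ℝ) < t from ht).ne'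
    simp only [Function.comp]
    field_simp
  obtain ⟨O', n, hO1, hO2, hDO, hO3, ⟨r₃, hr₃, hO4⟩, n1, n2, hF⟩ := enlarge2 h hne' hhalf hκ'
  obtain ⟨Φ, P, e, h5, h6, h7⟩ := ssim3_of_LD h hO1 hO2 hDO n1 n2 hF
  have hmt : MapsTo (fun x : E m => (R₂ : ℂ)⁻¹ • (x - c₂))
      {x | (R₂ : ℂ)⁻¹ • (x - c₂) ∈ O'} O' := fun x hx => hx
  have hinj : ∀ x : E m, (R₂ : ℂ)⁻¹ • (x - c₂) = (R₂ : ℂ)⁻¹ • (p - c₂) → x = p := by
    intro x hx
    rw [← hS x, hx, hS]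
  refine ⟨{x | (R₂ : ℂ)⁻¹ • (x - c₂) ∈ O'}, _, _, _, ⟨hO1.preimage hSc, ?_, ?_, ?_⟩, h5.affine hR20,
    h6.comp hSd.differentiableOn hmt, h7.comp hmt⟩
  · intro x hx
    refine hDO ?_
    change c₂ + (R₂ : ℂ) • ((R₂ : ℂ)⁻¹ • (x - c₂)) ∈ D
    rwa [hS]
  · rintro x ⟨hx, hxp⟩
    refine hO3 ⟨?_, fun h0 => hxp ?_⟩
    · have h1 : (fun x : E m => (R₂ : ℂ)⁻¹ • (x - c₂)) x ∈
          closure ((fun x : E m => (R₂ : ℂ)⁻¹ • (x - c₂)) '' D) :=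
        image_closure_subset_closure_image hSc ⟨x, hx, rfl⟩
      refine closure_mono ?_ h1
      rintro _ ⟨z, hz, rfl⟩
      change c₂ + (R₂ : ℂ) • ((R₂ : ℂ)⁻¹ • (z - c₂)) ∈ D
      rwa [hS]
    · rw [mem_singleton_iff] at h0 ⊢
      exact hinj x h0
  · refine ⟨R₂ * r₃, by positivity, fun x hxp hx hxD => hO4 _ (fun h0 => hxp (hinj x h0)) ?_ ?_⟩
    · rw [hdist]
      rw [inv_mul_lt_iff₀ hR20]
      exact hx
    · rw [hdist]
      obtain ⟨z, hz, hxz⟩ := (infDist_lt_iff hne).1 hxD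
      have hz' : (R₂ : ℂ)⁻¹ • (z - c₂) ∈ {y : E m | c₂ + (R₂ : ℂ) • y ∈ D} := by
        change c₂ + (R₂ : ℂ) • ((R₂ : ℂ)⁻¹ • (z - c₂)) ∈ D
        rwa [hS]
      have h1 := infDist_le_dist_of_mem (x := (R₂ : ℂ)⁻¹ • (x - c₂)) hz'
      rw [dist_eq_norm, hdist] at h1
      refine h1.trans_lt ?_
      rw [dist_eq_norm] at hxz
      rw [mul_inv_cancel_left₀ hR20.ne', div_eq_inv_mul]
      exact mul_lt_mul_of_pos_left hxz (inv_pos.2 hR20)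

/-- **Self-similarity data at exposed points**, with maps on larger domains. -/
theorem surround_exposed {m n : ℕ} (hm : 0 < m) {D : Set (V m)} {p : V m} (hD : IsOpen D)
    (hp : Exposed D p) (hn : n ≤ m) {κ : ℝ → ℝ}
    (hκ : Tendsto (fun t => κ t / t ^ 2) (𝓝[>] 0) (𝓝 0)) :
    ∃ (O : Set (V m)) (Φ : V m → V n) (P : ℕ → V n → V m) (e : Set ℕ → V m → ℂ),
      Surrounds D O p κ ∧ SSim D p Φ P e ∧ DifferentiableOn ℂ Φ O ∧ MapsTo Φ O (ball 0 1) := by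
  obtain ⟨hp, ⟨c, hc⟩, U, ρ, h1, h2, h3, h4, v, h5⟩ := hp
  have hcl := frontier_subset_closure hp
  have hne : D.Nonempty := closure_nonempty_iff.1 ⟨p, hcl⟩
  obtain ⟨h6, h7⟩ := farthest hm hD hne hcl hc
  obtain ⟨O, Φ, P, e, k1, k2, k3, k4⟩ := big_ball2 h6 hD hne h7 rfl hcl
    ⟨U, ρ, h1, h2, h3, h4, fun h0 => h5 (by rw [dr, h0]; rfl)⟩ hκ
  obtain ⟨Φ', P', h9, h10, h11⟩ := low2 hn k2 k3 k4
  exact ⟨O, Φ', P', e, k1, h9, h10, h11⟩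

end Pool.Agent.H272.OSP
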