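import Mathlib
import Pool.Agent.H272.OSP.Gen2
import Pool.Agent.H272.Self.Dom

/-!
Universal data; the final form of the theorem.
-/

set_option autoImplicit false

open Metric Set Filter Topology
open scoped ContDiff

namespace Pool.Agent.H272.OSP

open Pool.Agent.W732.Cor (mv)

theorem spc_smooth {m : ℕ} {D : Set (V m)} (h : StrictlyPseudoconvex D) : SmoothDomain D :=
  Pool.Agent.H272.Self.spc_smooth h

theorem exists_exposed {m : ℕ} (hm : 0 < m) {D : Set (V m)} (h : SmoothDomain D) :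
    ∃ p, Exposed D p := Pool.Agent.H272.Self.exists_exposed hm h

theorem exposed_ball {m : ℕ} {p : V m} (hp : ‖p‖ = 1) : Exposed (Ball m) p :=
  Pool.Agent.H272.Self.exposed_ball hp

/-- the automorphism of the ball: universal data on the ball -/
theorem univ_data {m N : ℕ} (hm : 0 < m) {δ : ℝ} (hδ : 0 < δ) (hδN : δ < N) :
    ∃ F : Fin N → V m → ℂ, Data (Ball m) δ F ∧ ∀ C : ℝ, Solvable (Ball m) C F →
      ∀ δ' > δ, ∀ G : Fin N → V m → ℂ, Data (Ball m) δ' G → Solvable (Ball m) C G := by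
  have hne : (closure (Pool.Agent.H303.CB.Dich.Str δ :
      Set (Pool.Agent.H303.CB.Dich.CB m N))).Nonempty := by
    refine ⟨_, Pool.Agent.H303.CB.mkC_mem (F' := fun _ _ => 1) hδ hδN
      ⟨fun j => differentiableOn_const _, fun j z _ => by simp, fun z _ => by simp⟩⟩
  have : Nonempty (closure (Pool.Agent.H303.CB.Dich.Str δ :
    Set (Pool.Agent.H303.CB.Dich.CB m N))) := hne.to_subtype
  have := Pool.Agent.H303.CB.Dich.baire _ (isClosed_closure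
    (s := (Pool.Agent.H303.CB.Dich.Str δ : Set (Pool.Agent.H303.CB.Dich.CB m N))))
  obtain ⟨⟨F, hFX⟩, hF⟩ := (dense_of_mem_residual
    (Pool.Agent.H303.CB.Dich.univ_residual (m := m) (N := N) hδ)).nonempty
  have hdat : F ∈ Pool.Agent.H303.CB.Dich.Dat δ :=
    closure_minimal (Pool.Agent.H303.CB.Dich.str_sub δ) (Pool.Agent.H303.CB.Dich.closed_dat δ) hFX
  have hD1 : Data (Ball m) δ (Pool.Agent.H303.CB.Dich.ex F) := by
    refine ⟨fun j => Pool.Agent.H303.CB.Dich.ex_diff hdat.1 j, fun j z hz => ?_, fun z hz => ?_⟩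
    · rw [Pool.Agent.H303.CB.Dich.ex_apply F j hz]; exact (hdat.2 ⟨z, hz⟩).1 j
    · simp only [Pool.Agent.H303.CB.Dich.ex_apply F _ hz]; exact (hdat.2 ⟨z, hz⟩).2
  refine ⟨Pool.Agent.H303.CB.Dich.ex F, hD1, fun C hs δ' hδ' G hG => ?_⟩
  have hmem := Pool.Agent.H303.CB.mkC_mem hδ hδ' (F' := G) hG
  obtain ⟨g, g1, g2, g3⟩ := hs
  have hsol : Pool.Agent.H303.CB.Dich.SolC C univ F := by
    rw [Pool.Agent.H303.CB.Dich.sol_iff]
    exact ⟨g, fun j => (g1 j).mono inter_subset_left, fun j z hz => g2 j z hz.1,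
      fun z hz => g3 z hz.1⟩
  have hp : ∃ p ∈ (univ : Set (V m)), ‖p‖ = 1 := by
    refine ⟨EuclideanSpace.single (⟨0, hm⟩ : Fin m) 1, mem_univ _, ?_⟩
    simp
  have h1 := Pool.Agent.H303.CB.Dich.univ_sol hF isOpen_univ hp hsol hmem
  rw [Pool.Agent.H303.CB.Dich.mkC_sol] at h1
  obtain ⟨k, k1, k2, k3⟩ := h1
  exact ⟨k, fun j => (k1 j).mono fun z hz => ⟨hz, mem_univ z⟩, fun j z hz => k2 j z ⟨hz, mem_univ z⟩,
    fun z hz => k3 z ⟨hz, mem_univ z⟩⟩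

/-- lower dimensions -/
theorem down {k m : ℕ} (hkm : k ≤ m) {N : ℕ} {δ C : ℝ}
    (h : ∀ F : Fin N → V m → ℂ, Data (Ball m) δ F → Solvable (Ball m) C F)
    (F : Fin N → V k → ℂ) (hF : Data (Ball k) δ F) : Solvable (Ball k) C F := by
  obtain ⟨d, rfl⟩ := Nat.exists_eq_add_of_le hkm
  have d1 : Differentiable ℂ (fun x => Pool.Agent.H272.SS.pro k d x) :=
    (LinearMap.toContinuousLinearMap (Pool.Agent.H272.SS.pro k d)).differentiable
  have d2 : Differentiable ℂ (fun y => Pool.Agent.H272.SS.iot k d y) :=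
    (LinearMap.toContinuousLinearMap (Pool.Agent.H272.SS.iot k d)).differentiable
  have m1 : MapsTo (fun x => Pool.Agent.H272.SS.pro k d x) (Ball (k + d)) (Ball k) := by
    intro x hx
    rw [Ball, mem_ball_zero_iff] at hx ⊢
    exact (Pool.Agent.H272.SS.norm_pro x).trans_lt hx
  have m2 : MapsTo (fun y => Pool.Agent.H272.SS.iot k d y) (Ball k) (Ball (k + d)) := by
    intro y hy
    rw [Ball, mem_ball_zero_iff] at hy ⊢
    rwa [Pool.Agent.H272.SS.norm_iot]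
  obtain ⟨g, g1, g2, g3⟩ := h (fun j x => F j (Pool.Agent.H272.SS.pro k d x))
    ⟨fun j => (hF.1 j).comp d1.differentiableOn m1, fun j x hx => hF.2.1 j _ (m1 hx),
      fun x hx => hF.2.2 _ (m1 hx)⟩
  refine ⟨fun j y => g j (Pool.Agent.H272.SS.iot k d y),
    fun j => (g1 j).comp d2.differentiableOn m2, fun j y hy => g2 j _ (m2 hy), fun y hy => ?_⟩
  have := g3 _ (m2 hy)
  simp only [Pool.Agent.H272.SS.pro_iot] at this
  exact this

theorem main {m : ℕ} (hm : 0 < m) {D : Set (V m)} {p : V m} (hD : IsOpen D) (hp : Exposed D p)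
    {κ : ℝ → ℝ} (hκ : Tendsto (fun t => κ t / t ^ 2) (𝓝[>] 0) (𝓝 0)) :
    ∃ O : Set (V m), Surrounds D O p κ ∧
      (∀ n ≤ m, ∃ Φ : V m → V n, DifferentiableOn ℂ Φ O ∧ MapsTo Φ O (Ball n) ∧
        ∀ (N : ℕ) (f : Fin N → V n → ℂ) (C : ℝ) (W : Set (V m)),
          (∀ j, DifferentiableOn ℂ (f j) (Ball n)) → IsOpen W → p ∈ W →
            (Solvable (Ball n) C f ↔ Solvable (D ∩ W) C (fun j x => f j (Φ x)))) ∧
      ∀ (N : ℕ) (δ : ℝ), 0 < δ → δ < N → ∃ F : Fin N → V m → ℂ, Data O δ F ∧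
        ∀ (C : ℝ) (W : Set (V m)), IsOpen W → p ∈ W → Solvable (D ∩ W) C F →
          ∀ δ' > δ, Balls m N δ' C := by
  obtain ⟨O, Φ, P, e, h1, h2, h3, h4⟩ := surround_exposed (n := m) hm hD hp le_rfl hκ
  refine ⟨O, h1, fun n hn => ?_, fun N δ hδ hδN => ?_⟩
  · obtain ⟨Φ', P', k1, k2, k3⟩ := low2 hn h2 h3 h4
    exact ⟨Φ', k2, k3, fun N f C W hf hW hpW => k1.transfer hf hW hpW⟩
  · obtain ⟨F, hF, hu⟩ := univ_data hm hδ hδN
    refine ⟨fun j x => F j (Φ x), ⟨fun j => (hF.1 j).comp h3 h4, fun j x hx => hF.2.1 j _ (h4 hx),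
      fun x hx => hF.2.2 _ (h4 hx)⟩, fun C W hW hpW hs δ' hδ' k hk => ?_⟩
    have h5 : Solvable (Ball m) C F := (h2.transfer hF.1 hW hpW).2 hs
    exact down hk (hu C h5 δ' hδ')

theorem corona_of {m n : ℕ} (hm : 0 < m) (hn : n ≤ m) {D : Set (V m)} {p : V m} (hD : IsOpen D)
    (hp : Exposed D p) {κ : ℝ → ℝ} (hκ : Tendsto (fun t => κ t / t ^ 2) (𝓝[>] 0) (𝓝 0))
    (h : ∀ O, Surrounds D O p κ → ∃ W, IsOpen W ∧ p ∈ W ∧ CoronaOn O (D ∩ W)) :
    CoronaTheorem (Ball n) := by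
  obtain ⟨O, h1, h2, -⟩ := main hm hD hp hκ
  obtain ⟨Φ, h3, h4, h5⟩ := h2 n hn
  obtain ⟨W, hW, hpW, hc⟩ := h O h1
  intro N F hF ⟨δ, hδ, hl⟩
  obtain ⟨g, g1, g2⟩ := hc N (fun j x => F j (Φ x)) (fun j => ⟨(hF j).1.comp h3 h4, by
    obtain ⟨C, hC⟩ := (hF j).2
    exact ⟨C, fun x hx => hC _ (h4 hx)⟩⟩) ⟨δ, hδ, fun x hx => hl _ (h4 hx)⟩
  choose c hc using fun j => (g1 j).2
  have h6 : Solvable (D ∩ W) (∑ j, |c j|) (fun j x => F j (Φ x)) := by
    refine ⟨g, fun j => (g1 j).1, fun j z hz => ?_, g2⟩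
    refine (hc j z hz).trans ((le_abs_self _).trans ?_)
    exact Finset.single_le_sum (f := fun j => |c j|) (fun i _ => abs_nonneg _) (Finset.mem_univ j)
  obtain ⟨k, k1, k2, k3⟩ := (h5 N F _ W (fun j => (hF j).1) hW hpW).2 h6
  exact ⟨k, fun j => ⟨k1 j, _, k2 j⟩, k3⟩

end Pool.Agent.H272.OSP
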